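import Pool.Agent.J4H48.RS.Reg

/-!
# Random central sections of the cube, all codimensions
-/

set_option autoImplicit false

open MeasureTheory ProbabilityTheory Filter Topology
open scoped RealInnerProductSpace ENNReal Matrix

namespace Pool.Agent.J4H48.RS

open Pool.Agent.PZ871 (E gm)
open Pool.Agent.TH84.HC
open Pool.Agent.J4H48.RP

variable {d N : ℕ}

/-- the logarithms, with `d = q ^ 8` -/
theorem logs {q : ℝ} (hq : 4000 ≤ q) (hd : (d : ℝ) = q ^ 8) (k : ℕ) (hk : (k : ℝ) ≤ d)
    (hN : N = d + k) : Real.log d = 8 * Real.log q ∧ Real.log N ≤ 8 * q ∧ 8 ≤ Real.log q ∧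
      Real.log q ≤ q := by
  have hq0 : 0 < q := by linarith
  have h1 : Real.log d = 8 * Real.log q := by
    rw [hd, Real.log_pow]
    norm_num
  have h2 : Real.log q ≤ q - 1 := Real.log_le_sub_one_of_pos hq0
  refine ⟨h1, ?_, ?_, by linarith⟩
  · have hd0 : (0:ℝ) < d := by rw [hd]; positivity
    have hNr : (N : ℝ) ≤ 2 * d := by rw [hN]; push_cast; linarith
    have hN0 : (0:ℝ) < N := by
      rw [hN]
      push_cast
      have : (0:ℝ) ≤ k := Nat.cast_nonneg _
      linarith
    calc Real.log N ≤ Real.log (2 * d) := Real.log_le_log hN0 hNr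
      _ = Real.log 2 + 8 * Real.log q := by
          rw [Real.log_mul (by norm_num) hd0.ne', h1]
      _ ≤ 1 + 8 * (q - 1) := by
          have := Real.log_two_lt_d9
          linarith
      _ ≤ _ := by linarith
  · have h3 : Real.exp 4 ≤ 55 := by
      have h6 := Real.exp_one_lt_d9
      have h7 : Real.exp 4 = Real.exp 1 ^ 4 := by
        rw [← Real.exp_nat_mul]
        norm_num
      rw [h7]
      calc Real.exp 1 ^ 4 ≤ 2.7182818286 ^ 4 := pow_le_pow_left₀ (Real.exp_pos _).le h6.le 4
        _ ≤ 55 := by norm_num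
    have h4 : Real.exp 8 = Real.exp 4 * Real.exp 4 := by
      rw [← Real.exp_add]
      norm_num
    rw [Real.le_log_iff_exp_le hq0, h4]
    nlinarith [Real.exp_pos 4]

/-- small codimension -/
theorem reg_small {q : ℝ} (hq : 10 ^ 6 ≤ q) (hd : (d : ℝ) = q ^ 8) (k : ℕ) (hk : 1 ≤ k)
    (hkq : (k : ℝ) ≤ q ^ 2) (hN : N = d + k) (c : ℝ) (hc0 : 0 < c) (hc : c ≤ 1 / 32) :
    Law d N {g | ¬ Good (2 ^ d * Real.exp (-(c * (Real.log d + k)))) (Sec g)} ≤
      ENNReal.ofReal (Real.exp (-(c * (Real.log d + k)))) := by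
  have hq0 : 0 < q := by linarith
  have hk1 : (1:ℝ) ≤ k := by exact_mod_cast hk
  have hk0 : (0:ℝ) < k := by linarith
  have hd1 : (1:ℝ) ≤ d := by
    rw [hd]
    exact one_le_pow₀ (by linarith)
  have hd1' : 1 ≤ d := by exact_mod_cast hd1
  have hkd : (k : ℝ) ≤ d := by
    rw [hd]
    refine hkq.trans (pow_le_pow_right₀ (by linarith) (by norm_num))
  obtain ⟨l1, l2, l3, l4⟩ := logs (by linarith : (4000:ℝ) ≤ q) hd k hkd hN
  have hNr : (N : ℝ) = d + k := by rw [hN]; push_cast; ring
  have hN0 : (0:ℝ) < N := by rw [hNr]; linarith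
  set η : ℝ := 24 / q ^ 6 with hη
  have hη0 : 0 < η := by positivity
  have hq6 : (10 ^ 6 : ℝ) ≤ q ^ 6 := by
    calc (10 ^ 6 : ℝ) ≤ q := hq
      _ = q ^ 1 := (pow_one q).symm
      _ ≤ q ^ 6 := pow_le_pow_right₀ (by linarith) (by norm_num)
  have hη1 : η ≤ 1 := by
    rw [hη, div_le_one (by positivity)]
    linarith
  set β : ℝ := 48 * k ^ 2 / (q ^ 6 * N) with hβ
  have hβN : β * N = 48 * k ^ 2 / q ^ 6 := by
    rw [hβ]
    field_simp
  have hβ0 : 0 < β := by positivity
  have hβk : β * N ≤ k := by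
    rw [hβN, div_le_iff₀ (by positivity)]
    have : 48 * (k:ℝ) ≤ q ^ 6 := by
      have h1 : q ^ 6 = q ^ 2 * q ^ 4 := by ring
      have h2 : (48:ℝ) ≤ q ^ 4 := by
        calc (48:ℝ) ≤ q := by linarith
          _ = q ^ 1 := (pow_one q).symm
          _ ≤ q ^ 4 := pow_le_pow_right₀ (by linarith) (by norm_num)
      rw [h1]
      nlinarith [sq_nonneg q]
    nlinarith
  have hβη : (k : ℝ) ^ 2 * η < β * N := by
    rw [hβN, hη, ← mul_div_assoc]
    apply div_lt_div_of_pos_right _ (by positivity)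
    nlinarith
  set y : ℝ := 2 ^ d * (1 / q) ^ k with hy
  have hy0 : 0 < y := by positivity
  have hmain := prob_small hd1' k hk hN η β hη0.le hη1 hβ0 hβk hβη y hy0
  -- exponentials
  have hexpq : ∀ x : ℝ, Real.exp (-(x * Real.log q)) = (Real.exp (-Real.log q)) ^ x := by
    intro x
    rw [← Real.exp_mul]
    congr 1
    ring
  have hkl : Real.log q ≤ k * Real.log q := le_mul_of_one_le_left (by linarith) hk1
  have hkl8 : (k : ℝ) * 8 ≤ k * Real.log q := mul_le_mul_of_nonneg_left l3 hk0.le
  have hcT : c * (Real.log d + k) ≤ (k : ℝ) * Real.log q / 3 := by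
    rw [l1]
    have h1 : c * (8 * Real.log q + k) ≤ 1 / 32 * (8 * Real.log q + k) :=
      mul_le_mul_of_nonneg_right hc (by linarith)
    linarith
  have hcT2 : c * (Real.log d + k) ≤ q ^ 2 := by
    have h1 : c * (Real.log d + k) ≤ 1 / 32 * (8 * q + q ^ 2) := by
      apply mul_le_mul hc _ _ (by norm_num)
      · linarith
      · have : 0 ≤ Real.log d := Real.log_nonneg hd1
        linarith
    nlinarith
  have hyle : y ≤ 2 ^ d * Real.exp (-(c * (Real.log d + k))) := by
    rw [hy]
    gcongr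
    have h1 : (1 / q) ^ k = Real.exp (-(k * Real.log q)) := by
      rw [one_div, ← Real.exp_log hq0, ← Real.exp_neg, ← Real.exp_nat_mul, Real.log_exp]
      congr 1
      ring
    rw [h1]
    apply Real.exp_le_exp.2
    nlinarith
  have hsub : {g : Fin N → E d | ¬ Good (2 ^ d * Real.exp (-(c * (Real.log d + k)))) (Sec g)} ⊆
      {g | ¬ Good y (Sec g)} := by
    intro g hg hgood
    exact hg (hgood.mono hyle)
  refine (measure_mono hsub).trans (hmain.trans ?_)
  rw [← ENNReal.ofReal_add (by positivity) (by positivity)]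
  apply ENNReal.ofReal_le_ofReal
  -- first term
  have t1 : N * Real.exp (k / 2 - η * d / 6) ≤ 1 / 2 * Real.exp (-(c * (Real.log d + k))) := by
    have e1 : η * d / 6 = 4 * q ^ 2 := by
      rw [hη, hd]
      field_simp
      ring
    rw [e1]
    calc (N:ℝ) * Real.exp (k / 2 - 4 * q ^ 2) = Real.exp (Real.log N) * Real.exp (k / 2 - 4 * q ^ 2) := by
          rw [Real.exp_log hN0]
      _ = Real.exp (Real.log N + (k / 2 - 4 * q ^ 2)) := by rw [Real.exp_add]
      _ ≤ Real.exp (-1 + -(c * (Real.log d + k))) := by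
          apply Real.exp_le_exp.2
          nlinarith
      _ = Real.exp (-1) * Real.exp (-(c * (Real.log d + k))) := by rw [Real.exp_add]
      _ ≤ _ := by
          gcongr
          rw [Real.exp_neg]
          rw [inv_le_comm₀ (Real.exp_pos _) (by norm_num)]
          have := Real.add_one_le_exp (1:ℝ)
          norm_num
          linarith
  have t2 : 2 ^ N * Real.sqrt (Real.exp 1 * (β * N / k)) ^ k / y ≤
      1 / 2 * Real.exp (-(c * (Real.log d + k))) := by
    have e1 : β * N / k = 48 * k / q ^ 6 := by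
      rw [hβN]
      field_simp
    have h1 : Real.sqrt (Real.exp 1 * (β * N / k)) ≤ 12 / q ^ 2 := by
      apply Real.sqrt_le_iff.2
      refine ⟨by positivity, ?_⟩
      rw [e1, div_pow, ← mul_div_assoc, div_le_div_iff₀ (by positivity) (by positivity)]
      have h2 := Real.exp_one_lt_d9
      have h3 : Real.exp 1 * (48 * k) ≤ 144 * q ^ 2 := by
        have : Real.exp 1 * (48 * k) ≤ 3 * (48 * k) :=
          mul_le_mul_of_nonneg_right (by linarith) (by positivity)
        linarith
      calc Real.exp 1 * (48 * k) * (q ^ 2) ^ 2 ≤ 144 * q ^ 2 * (q ^ 2) ^ 2 := by gcongr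
        _ = 12 ^ 2 * q ^ 6 := by ring
    have h2 : 2 ^ N * Real.sqrt (Real.exp 1 * (β * N / k)) ^ k / y =
        (2 * Real.sqrt (Real.exp 1 * (β * N / k)) * q) ^ k := by
      rw [hy, hN, pow_add, mul_pow, mul_pow, one_div, inv_pow]
      field_simp
    rw [h2]
    have h3 : 2 * Real.sqrt (Real.exp 1 * (β * N / k)) * q ≤ 24 / q := by
      calc 2 * Real.sqrt (Real.exp 1 * (β * N / k)) * q ≤ 2 * (12 / q ^ 2) * q := by gcongr
        _ = 24 / q := by
          field_simp
          norm_num
    have h4 : (24:ℝ) / q ≤ Real.exp (-(Real.log q / 2)) := by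
      have h5 : Real.exp (-(Real.log q / 2)) = 1 / Real.sqrt q := by
        rw [Real.exp_neg, Real.exp_half, Real.exp_log hq0, one_div]
      rw [h5, div_le_div_iff₀ hq0 (Real.sqrt_pos.2 hq0), one_mul]
      have h6 : (24:ℝ) ≤ Real.sqrt q := Real.le_sqrt_of_sq_le (by linarith)
      have h7 := Real.mul_self_sqrt hq0.le
      nlinarith [Real.sqrt_nonneg q]
    calc (2 * Real.sqrt (Real.exp 1 * (β * N / k)) * q) ^ k ≤ (Real.exp (-(Real.log q / 2))) ^ k :=
          pow_le_pow_left₀ (by positivity) (h3.trans h4) k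
      _ = Real.exp (-(k / 2 * Real.log q)) := by
          rw [← Real.exp_nat_mul]
          congr 1
          ring
      _ ≤ Real.exp (-1 + -(c * (Real.log d + k))) := by
          apply Real.exp_le_exp.2
          nlinarith
      _ = Real.exp (-1) * Real.exp (-(c * (Real.log d + k))) := by rw [Real.exp_add]
      _ ≤ _ := by
          gcongr
          rw [Real.exp_neg]
          rw [inv_le_comm₀ (Real.exp_pos _) (by norm_num)]
          have := Real.add_one_le_exp (1:ℝ)
          norm_num
          linarith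
  linarith

end Pool.Agent.J4H48.RS
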