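import Pool.Agent.J4H48.RS.All

/-!
# Random central sections of the cube, all codimensions: medium codimension and final statement
-/

set_option autoImplicit false

open MeasureTheory ProbabilityTheory Filter Topology
open scoped RealInnerProductSpace ENNReal Matrix

namespace Pool.Agent.J4H48.RS

open Pool.Agent.PZ871 (E gm)
open Pool.Agent.TH84.HC
open Pool.Agent.J4H48.RP

variable {d N : ℕ}

/-- the covering bound in medium codimension, numerically -/
theorem num_bnd_mid (hd : 2 ≤ d) (k : ℕ) (hk : (k : ℝ) ≤ d) :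
    1 ≤ Real.sqrt (d - k / 324) ∧
    bnd d d (Real.sqrt (d - k / 324)) ≤
      1 + 320 * d ^ 4 * 2 ^ d * Real.exp (-(k / 1296)) := by
  have hd2 : (2:ℝ) ≤ d := by exact_mod_cast hd
  have hk0 : (0:ℝ) ≤ k := Nat.cast_nonneg _
  have h1 : 1 ≤ (d : ℝ) - k / 324 := by linarith
  have hR := Real.one_le_sqrt.2 h1
  refine ⟨hR, ?_⟩
  unfold bnd
  rw [Real.sq_sqrt (by linarith)]
  set A : ℝ := d - k / 324 with hA
  have hAd : A ≤ d := by rw [hA]; linarith
  have h2 : Real.exp ((A - d) / Real.pi) ≤ Real.exp (-(k / 1296)) := by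
    apply Real.exp_le_exp.2
    have e : A - d = -(k / 324) := by rw [hA]; ring
    rw [e, neg_div, neg_le_neg_iff, le_div_iff₀ Real.pi_pos]
    nlinarith [Real.pi_lt_four]
  have h3 : Real.log (8 * A * (d + d + A + 4)) ≤ 40 * d ^ 2 := by
    have h4 : 0 < 8 * A * (d + d + A + 4) := by positivity
    refine (Real.log_le_sub_one_of_pos h4).trans ?_
    have h5 : 8 * A * (d + d + A + 4) ≤ 8 * d * (5 * d) := by
      apply mul_le_mul _ _ (by positivity) (by positivity)
      · linarith
      · linarith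
    nlinarith
  have h4 : 8 * (d:ℝ) * d * 2 ^ d * Real.exp ((A - d) / Real.pi) *
      Real.log (8 * A * (d + d + A + 4)) ≤
      8 * (d:ℝ) * d * 2 ^ d * Real.exp (-(k / 1296)) * (40 * d ^ 2) := by
    apply mul_le_mul _ h3 _ (by positivity)
    · gcongr
    · apply Real.log_nonneg
      nlinarith
  calc 1 + 8 * (d:ℝ) * d * 2 ^ d * Real.exp ((A - d) / Real.pi) *
      Real.log (8 * A * (d + d + A + 4)) ≤
      1 + 8 * (d:ℝ) * d * 2 ^ d * Real.exp (-(k / 1296)) * (40 * d ^ 2) := by linarith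
    _ = _ := by ring

/-- medium codimension -/
theorem reg_mid {q : ℝ} (hq : 10 ^ 6 ≤ q) (hd : (d : ℝ) = q ^ 8) (k : ℕ)
    (hkq : q ^ 2 < (k : ℝ)) (hkd : 10 ^ 5 * (k : ℝ) ≤ d) (hN : N = d + k) (c : ℝ) (hc0 : 0 < c)
    (hc : c ≤ 1 / 2592) :
    Law d N {g | ¬ Good (2 ^ d * Real.exp (-(c * (Real.log d + k)))) (Sec g)} ≤
      ENNReal.ofReal (Real.exp (-(c * (Real.log d + k)))) := by
  have hq0 : 0 < q := by linarith
  have hk0 : (0:ℝ) < k := lt_trans (by positivity) hkq
  have hk1 : 1 ≤ k := by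
    have : k ≠ 0 := by
      rintro rfl
      simp at hk0
    omega
  have hd0 : (0:ℝ) < d := by rw [hd]; positivity
  have hd2 : (2:ℝ) ≤ d := by
    have : (1:ℝ) ≤ k := by exact_mod_cast hk1
    linarith
  have hd2' : 2 ≤ d := by exact_mod_cast hd2
  have hkd' : (k : ℝ) ≤ d := by linarith
  obtain ⟨l1, l2, l3, l4⟩ := logs (by linarith : (4000:ℝ) ≤ q) hd k hkd' hN
  have hNr : (N : ℝ) = d + k := by rw [hN]; push_cast; ring
  have hN0 : (0:ℝ) < N := by rw [hNr]; linarith
  have hqk : 10 ^ 6 * q ≤ k := by nlinarith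
  set η : ℝ := 24 * k / d with hη
  have hη0 : 0 < η := by positivity
  have hη1 : η ≤ 1 / 4000 := by
    rw [hη, div_le_iff₀ hd0]
    linarith
  set β : ℝ := k / (81 * N) with hβ
  have hβN : β * N = k / 81 := by
    rw [hβ]
    field_simp
  have hβ0 : 0 < β := by positivity
  have hβk : β * N ≤ k := by
    rw [hβN]
    linarith
  obtain ⟨hR, hbnd⟩ := num_bnd_mid hd2' k hkd'
  have hRt : (1 + (1 - η)) ^ 2 / (4 * (1 - η)) * (d - (1 - η) * (β * N)) ≤
      (Real.sqrt (d - k / 324)) ^ 2 := by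
    rw [Real.sq_sqrt (by linarith), hβN]
    have h1 : (1 + (1 - η)) ^ 2 / (4 * (1 - η)) ≤ 1 + η ^ 2 / 2 := by
      rw [div_le_iff₀ (by linarith)]
      nlinarith [sq_nonneg η]
    have h2 : 0 ≤ (d : ℝ) - (1 - η) * (k / 81) := by nlinarith
    have h3 : (d : ℝ) - (1 - η) * (k / 81) ≤ d - k / 162 := by nlinarith
    have h4 : η ^ 2 * d ≤ k / 173 := by
      have e : η ^ 2 * d = 576 * k ^ 2 / d := by
        rw [hη]
        field_simp
        ring
      rw [e, div_le_iff₀ hd0]
      nlinarith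
    calc (1 + (1 - η)) ^ 2 / (4 * (1 - η)) * (d - (1 - η) * (k / 81))
        ≤ (1 + η ^ 2 / 2) * (d - k / 162) := mul_le_mul h1 h3 h2 (by positivity)
      _ ≤ d + η ^ 2 * d / 2 - k / 162 := by nlinarith [sq_nonneg η]
      _ ≤ d - k / 324 := by linarith
  set y : ℝ := 2 ^ d * Real.exp (-(k / 2)) with hy
  have hy0 : 0 < y := by positivity
  have hmain := prob_mid (by omega : 1 ≤ d) k hk1 hN η β hη0.le (by linarith) hβ0 hβk
    (Real.sqrt (d - k / 324)) hR hRt y hy0
  have hlogd : Real.log d ≤ 8 * q := by rw [l1]; linarith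
  have hlog0 : 0 ≤ Real.log d := by rw [l1]; linarith
  have hcT : c * (Real.log d + k) ≤ k / 1296 - 5 * Real.log d := by
    have h1 : c * (Real.log d + k) ≤ 1 / 2592 * (Real.log d + k) :=
      mul_le_mul_of_nonneg_right hc (by linarith)
    linarith
  have hcT2 : c * (Real.log d + k) ≤ k / 1296 := by linarith
  have hnum : y + bnd d d (Real.sqrt (d - k / 324)) ≤ 2 ^ d * Real.exp (-(c * (Real.log d + k))) := by
    have h1 : y ≤ 2 ^ d * Real.exp (-(k / 1296)) := by
      rw [hy]
      gcongr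
      norm_num
    have h2 : 1 ≤ (2:ℝ) ^ d * Real.exp (-(k / 1296)) := by
      have h3 : Real.exp (k / 1296) ≤ 2 ^ d := by
        calc Real.exp (k / 1296) ≤ Real.exp (1/2 * d) := by
              apply Real.exp_le_exp.2
              linarith
          _ = Real.exp (1/2) ^ d := by
              rw [← Real.exp_nat_mul]
              congr 1
              ring
          _ ≤ 2 ^ d := by
              apply pow_le_pow_left₀ (Real.exp_pos _).le
              have h4 : Real.exp (1/2) ^ 2 ≤ 2 ^ 2 := by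
                rw [← Real.exp_nat_mul]
                have := Real.exp_one_lt_d9
                norm_num
                linarith
              exact le_of_sq_le_sq h4 (by norm_num)
      have h4 : Real.exp ((k:ℝ) / 1296) * Real.exp (-(k / 1296)) = 1 := by
        rw [← Real.exp_add]
        simp
      rw [← h4]
      exact mul_le_mul_of_nonneg_right h3 (Real.exp_pos _).le
    have h3 : y + bnd d d (Real.sqrt (d - k / 324)) ≤
        2 ^ d * Real.exp (-(k / 1296)) * (2 + 320 * d ^ 4) := by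
      calc _ ≤ 2 ^ d * Real.exp (-(k / 1296)) +
            (2 ^ d * Real.exp (-(k / 1296)) +
            320 * d ^ 4 * 2 ^ d * Real.exp (-(k / 1296))) := by linarith
        _ = _ := by ring
    have h4 : 2 + 320 * (d:ℝ) ^ 4 ≤ d ^ 5 := by
      have h5 : (322:ℝ) ≤ d := by
        have : (1:ℝ) ≤ k := by exact_mod_cast hk1
        linarith
      have h6 : (1:ℝ) ≤ d ^ 4 := one_le_pow₀ (by linarith)
      have e : (d:ℝ) ^ 5 = d ^ 4 * d := by ring
      rw [e]
      nlinarith
    have h5 : (d:ℝ) ^ 5 = Real.exp (5 * Real.log d) := by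
      have : (5:ℝ) * Real.log d = ((5:ℕ):ℝ) * Real.log d := by norm_num
      rw [this, Real.exp_nat_mul, Real.exp_log hd0]
    calc _ ≤ 2 ^ d * Real.exp (-(k / 1296)) * (2 + 320 * d ^ 4) := h3
      _ ≤ 2 ^ d * Real.exp (-(k / 1296)) * Real.exp (5 * Real.log d) := by
          gcongr
          rw [← h5]
          exact h4
      _ = 2 ^ d * Real.exp (-(k / 1296) + 5 * Real.log d) := by rw [mul_assoc, ← Real.exp_add]
      _ ≤ _ := by
          gcongr
          linarith
  have hsub : {g : Fin N → E d | ¬ Good (2 ^ d * Real.exp (-(c * (Real.log d + k)))) (Sec g)} ⊆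
      {g | ¬ Good (y + bnd d d (Real.sqrt (d - k / 324))) (Sec g)} := by
    intro g hg hgood
    exact hg (hgood.mono hnum)
  refine (measure_mono hsub).trans (hmain.trans ?_)
  rw [← ENNReal.ofReal_add (by positivity) (by positivity)]
  apply ENNReal.ofReal_le_ofReal
  have half : Real.exp (-1) ≤ 1 / 2 := by
    rw [Real.exp_neg]
    rw [inv_le_comm₀ (Real.exp_pos _) (by norm_num)]
    have := Real.add_one_le_exp (1:ℝ)
    norm_num
    linarith
  -- first term
  have t1 : N * Real.exp (k / 2 - η * d / 6) ≤ 1 / 2 * Real.exp (-(c * (Real.log d + k))) := by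
    have e1 : η * d / 6 = 4 * k := by
      rw [hη]
      field_simp
      ring
    rw [e1]
    calc (N:ℝ) * Real.exp (k / 2 - 4 * k) = Real.exp (Real.log N) * Real.exp (k / 2 - 4 * k) := by
          rw [Real.exp_log hN0]
      _ = Real.exp (Real.log N + (k / 2 - 4 * k)) := by rw [Real.exp_add]
      _ ≤ Real.exp (-1 + -(c * (Real.log d + k))) := by
          apply Real.exp_le_exp.2
          linarith
      _ = Real.exp (-1) * Real.exp (-(c * (Real.log d + k))) := by rw [Real.exp_add]
      _ ≤ _ := by gcongr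
  have t2 : 2 ^ N * Real.sqrt (Real.exp 1 * (β * N / k)) ^ k / y ≤
      1 / 2 * Real.exp (-(c * (Real.log d + k))) := by
    have e1 : β * N / k = 1 / 81 := by
      rw [hβN]
      field_simp
    have h1 : 2 * Real.sqrt (Real.exp 1 * (β * N / k)) ≤ Real.exp (-1) := by
      rw [e1]
      have h2 : Real.sqrt (Real.exp 1 * (1 / 81)) ≤ Real.exp (-1) / 2 := by
        apply Real.sqrt_le_iff.2
        refine ⟨by positivity, ?_⟩
        have e3 : Real.exp (-1) ^ 2 = Real.exp 1 / Real.exp 1 ^ 3 := by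
          rw [← Real.exp_nat_mul, ← Real.exp_nat_mul, ← Real.exp_sub]
          norm_num
        have h4 : Real.exp 1 ^ 3 ≤ 81 / 4 := by
          have h6 := Real.exp_one_lt_d9
          calc Real.exp 1 ^ 3 ≤ 2.7182818286 ^ 3 := pow_le_pow_left₀ (Real.exp_pos _).le h6.le 3
            _ ≤ 81 / 4 := by norm_num
        rw [div_pow, e3, div_div, mul_one_div]
        apply div_le_div_of_nonneg_left (Real.exp_pos _).le (by positivity)
        linarith
      linarith
    have h2 : 2 ^ N * Real.sqrt (Real.exp 1 * (β * N / k)) ^ k / y =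
        (2 * Real.sqrt (Real.exp 1 * (β * N / k))) ^ k * Real.exp (k / 2) := by
      rw [hy, hN, pow_add, mul_pow, Real.exp_neg]
      field_simp
    rw [h2]
    calc (2 * Real.sqrt (Real.exp 1 * (β * N / k))) ^ k * Real.exp (k / 2)
        ≤ (Real.exp (-1)) ^ k * Real.exp (k / 2) := by gcongr
      _ = Real.exp (-(k / 2)) := by
          rw [← Real.exp_nat_mul, ← Real.exp_add]
          congr 1
          ring
      _ ≤ Real.exp (-1 + -(c * (Real.log d + k))) := by
          apply Real.exp_le_exp.2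
          linarith
      _ = Real.exp (-1) * Real.exp (-(c * (Real.log d + k))) := by rw [Real.exp_add]
      _ ≤ _ := by gcongr
  linarith

/-- **Random central sections of the cube, all codimensions.** -/
theorem all_sections : ∃ c : ℝ, 0 < c ∧ ∃ d₀ : ℕ, ∀ d : ℕ, d₀ ≤ d → ∀ N : ℕ, d < N →
    Law d N {g | ¬ Good (2 ^ d * Real.exp (-(c * (Real.log d + min ((N : ℝ) - d) d)))) (Sec g)} ≤
      ENNReal.ofReal (Real.exp (-(c * (Real.log d + min ((N : ℝ) - d) d)))) := by
  obtain ⟨c₁, C₁, hc₁, hsec⟩ := sections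
  set δ : ℝ := 1 / 10 ^ 5 with hδ
  set c : ℝ := min (1 / 2592) (c₁ * δ ^ 4 / 2) with hc
  have hc0 : 0 < c := lt_min (by norm_num) (by positivity)
  have hc1 : c ≤ 1 / 2592 := min_le_left _ _
  have hc2 : c ≤ c₁ * δ ^ 4 / 2 := min_le_right _ _
  set Q : ℝ := max (10 ^ 6) (8 * |C₁| / δ ^ 4) with hQ
  refine ⟨c, hc0, ⌈Q ^ 8⌉₊, fun d hd N hdN => ?_⟩
  have hQd : Q ^ 8 ≤ d := (Nat.le_ceil _).trans (by exact_mod_cast hd)
  have hQ6 : (10 ^ 6 : ℝ) ≤ Q := le_max_left _ _
  have hQ0 : 0 < Q := lt_of_lt_of_le (by norm_num) hQ6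
  have hd0 : (0:ℝ) < d := lt_of_lt_of_le (by positivity) hQd
  set q : ℝ := (d : ℝ) ^ (1 / 8 : ℝ) with hq
  have hqd : (d : ℝ) = q ^ 8 := by
    rw [hq, ← Real.rpow_natCast, ← Real.rpow_mul hd0.le]
    norm_num
  have hq0 : 0 < q := by rw [hq]; positivity
  have hQq : Q ≤ q := by
    by_contra hcon
    push Not at hcon
    have := pow_lt_pow_left₀ hcon hq0.le (by norm_num : 8 ≠ 0)
    linarith
  have hq6 : 10 ^ 6 ≤ q := hQ6.trans hQq
  obtain ⟨k, hk⟩ : ∃ k, N = d + k := ⟨N - d, by omega⟩
  have hk1 : 1 ≤ k := by omega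
  have hk1r : (1:ℝ) ≤ k := by exact_mod_cast hk1
  have hNr : (N : ℝ) - d = k := by rw [hk]; push_cast; ring
  rw [hNr]
  by_cases h1 : (k : ℝ) ≤ q ^ 2
  · have hkd : (k : ℝ) ≤ d := by
      rw [hqd]
      exact h1.trans (pow_le_pow_right₀ (by linarith) (by norm_num))
    rw [min_eq_left hkd]
    exact reg_small hq6 hqd k hk1 h1 hk c hc0 (by linarith)
  · push Not at h1
    by_cases h2 : 10 ^ 5 * (k : ℝ) ≤ d
    · rw [min_eq_left (by linarith)]
      exact reg_mid hq6 hqd k h1 h2 hk c hc0 hc1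
    · push Not at h2
      have hd2 : 2 ≤ d := by
        have h3 : (2:ℝ) ≤ d := by
          rw [hqd]
          calc (2:ℝ) ≤ q := by linarith
            _ = q ^ 1 := (pow_one q).symm
            _ ≤ q ^ 8 := pow_le_pow_right₀ (by linarith) (by norm_num)
        exact_mod_cast h3
      have hlog : Real.log d ≤ 8 * q := by
        have h3 : Real.log d = 8 * Real.log q := by
          rw [hqd, Real.log_pow]
          norm_num
        have h4 := Real.log_le_sub_one_of_pos hq0
        rw [h3]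
        linarith
      have hlog0 : 0 ≤ Real.log d := Real.log_nonneg (by linarith [show (2:ℝ) ≤ d by exact_mod_cast hd2])
      have hδ0 : 0 < δ := by norm_num [hδ]
      have hC : C₁ * Real.log d ≤ δ ^ 4 * d := by
        have h3 : 8 * |C₁| / δ ^ 4 ≤ q := (le_max_right _ _).trans hQq
        have h4 : 8 * |C₁| ≤ q * δ ^ 4 := by rwa [div_le_iff₀ (by positivity)] at h3
        have h5 : q * q ≤ d := by
          rw [hqd]
          calc q * q = q ^ 2 := by ring
            _ ≤ q ^ 8 := pow_le_pow_right₀ (by linarith) (by norm_num)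
        calc C₁ * Real.log d ≤ |C₁| * (8 * q) := by
              apply mul_le_mul (le_abs_self _) hlog hlog0 (abs_nonneg _)
          _ = (8 * |C₁|) * q := by ring
          _ ≤ (q * δ ^ 4) * q := mul_le_mul_of_nonneg_right h4 hq0.le
          _ = δ ^ 4 * (q * q) := by ring
          _ ≤ _ := by gcongr
      have hNδ : (1 + δ) * d ≤ N := by
        have h3 : (N : ℝ) = d + k := by rw [hk]; push_cast; ring
        rw [h3, hδ]
        linarith
      have h3 := hsec d hd2 δ hδ0 (by norm_num [hδ]) hC N hNδ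
      have hlogd : Real.log d ≤ d := (Real.log_le_sub_one_of_pos hd0).trans (by linarith)
      have hT : c * (Real.log d + min (k : ℝ) d) ≤ c₁ * δ ^ 4 * d := by
        have h4 : Real.log d + min (k : ℝ) d ≤ 2 * d := by
          have := min_le_right (k : ℝ) d
          linarith
        calc c * (Real.log d + min (k : ℝ) d) ≤ c * (2 * d) := by gcongr
          _ ≤ (c₁ * δ ^ 4 / 2) * (2 * d) := by gcongr
          _ = _ := by ring
      have hδ42 : δ ^ 4 ≤ δ ^ 2 := pow_le_pow_of_le_one hδ0.le (by norm_num [hδ]) (by norm_num)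
      have hT2 : c₁ * δ ^ 4 * d ≤ c₁ * δ ^ 2 * d := by gcongr
      refine le_trans (measure_mono ?_) (h3.trans (ENNReal.ofReal_le_ofReal
        (Real.exp_le_exp.2 (neg_le_neg hT))))
      intro g hg hgood
      exact hg (hgood.mono (mul_le_mul_of_nonneg_left
        (Real.exp_le_exp.2 (neg_le_neg (hT.trans hT2))) (by positivity)))

end Pool.Agent.J4H48.RS
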