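import Pool.Agent.J4H48.RP.AsyB

/-!
# The Laplace transform of the slack of a Gaussian slab
-/

set_option autoImplicit false

open MeasureTheory ProbabilityTheory Filter Topology
open scoped RealInnerProductSpace ENNReal Matrix

namespace Pool.Agent.J4H48.RS

open Pool.Agent.PZ871 (E gm)
open Pool.Agent.TH84.HC
open Pool.Agent.J4H48.RP

/-- the weight of a point of a slab -/
noncomputable def fw (l : ℝ) (y : ℝ) : ℝ≥0∞ :=
  if |y| ≤ 1 then ENNReal.ofReal (Real.exp (-(l * (1 - y ^ 2)))) else 0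

theorem fw_meas (l : ℝ) : Measurable (fw l) := by
  unfold fw
  refine Measurable.ite ?_ (by fun_prop) measurable_const
  exact measurableSet_le (by fun_prop) measurable_const

theorem ph_bound (z : ℝ) : |z| * gaussianPDFReal 0 1 z ≤ 1 / 3 := by
  have h1 : gaussianPDFReal 0 1 z = (Real.sqrt (2 * Real.pi))⁻¹ * Real.exp (-(z ^ 2) / 2) := by
    simp [gaussianPDFReal]
  have h2 : (5/2 : ℝ) ≤ Real.sqrt (2 * Real.pi) := by
    apply Real.le_sqrt_of_sq_le
    nlinarith [Real.pi_gt_d2]
  have h3 : |z| * Real.exp (-(z ^ 2) / 2) ≤ 5 / 6 := by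
    have h4 := Real.add_one_le_exp (z ^ 2 / 2)
    have h5 : |z| ≤ 5 / 6 * (z ^ 2 / 2 + 1) := by
      rw [← sq_abs z]
      nlinarith [sq_nonneg (|z| * 5 - 6), abs_nonneg z]
    have h6 : |z| ≤ 5 / 6 * Real.exp (z ^ 2 / 2) := by linarith
    have h7 : Real.exp (-(z ^ 2) / 2) * Real.exp (z ^ 2 / 2) = 1 := by
      rw [← Real.exp_add]
      simp
      ring
    calc |z| * Real.exp (-(z ^ 2) / 2) ≤ 5 / 6 * Real.exp (z ^ 2 / 2) * Real.exp (-(z ^ 2) / 2) :=
          mul_le_mul_of_nonneg_right h6 (Real.exp_pos _).le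
      _ = 5 / 6 * (Real.exp (-(z ^ 2) / 2) * Real.exp (z ^ 2 / 2)) := by ring
      _ = 5 / 6 := by rw [h7, mul_one]
  rw [h1]
  have h8 : (Real.sqrt (2 * Real.pi))⁻¹ ≤ (5/2)⁻¹ := inv_anti₀ (by norm_num) h2
  have h9 : 0 ≤ |z| * Real.exp (-(z ^ 2) / 2) := by positivity
  calc |z| * ((Real.sqrt (2 * Real.pi))⁻¹ * Real.exp (-(z ^ 2) / 2))
      = (Real.sqrt (2 * Real.pi))⁻¹ * (|z| * Real.exp (-(z ^ 2) / 2)) := by ring
    _ ≤ (5/2)⁻¹ * (5 / 6) := mul_le_mul h8 h3 h9 (by norm_num)
    _ = 1 / 3 := by norm_num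

theorem int_half (l r : ℝ) (hl : 0 < l) (hr : 0 < r) :
    ∫ z in (0:ℝ)..(1 / r), r ^ 2 * z * Real.exp (-(l * (1 - r ^ 2 * z ^ 2))) ≤ 1 / (2 * l) := by
  have hd : ∀ z : ℝ, HasDerivAt (fun z => Real.exp (-(l * (1 - r ^ 2 * z ^ 2))) / (2 * l))
      (r ^ 2 * z * Real.exp (-(l * (1 - r ^ 2 * z ^ 2)))) z := by
    intro z
    have h1 : HasDerivAt (fun z : ℝ => -(l * (1 - r ^ 2 * z ^ 2))) (2 * l * r ^ 2 * z) z := by
      have h2 := (((hasDerivAt_pow 2 z).const_mul (r ^ 2)).const_sub 1).const_mul l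
      have h3 := h2.fun_neg
      have e : -(l * -(r ^ 2 * (((2 : ℕ) : ℝ) * z ^ (2 - 1)))) = 2 * l * r ^ 2 * z := by
        push_cast
        ring
      rw [e] at h3
      exact h3
    have h2 := h1.exp.div_const (2 * l)
    have e : Real.exp (-(l * (1 - r ^ 2 * z ^ 2))) * (2 * l * r ^ 2 * z) / (2 * l) =
        r ^ 2 * z * Real.exp (-(l * (1 - r ^ 2 * z ^ 2))) := by
      field_simp
    rw [e] at h2
    exact h2
  rw [intervalIntegral.integral_eq_sub_of_hasDerivAt (fun z _ => hd z)]
  · have e1 : -(l * (1 - r ^ 2 * (1 / r) ^ 2)) = 0 := by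
      field_simp
      ring
    rw [e1, Real.exp_zero]
    have : 0 ≤ Real.exp (-(l * (1 - r ^ 2 * 0 ^ 2))) / (2 * l) := by positivity
    linarith
  · apply Continuous.intervalIntegrable
    fun_prop

theorem lint_half (l r : ℝ) (hl : 0 < l) (hr : 0 < r) :
    ∫⁻ z in Set.Icc (0:ℝ) (1 / r), ENNReal.ofReal
      (r ^ 2 * |z| * Real.exp (-(l * (1 - r ^ 2 * z ^ 2)))) ≤ ENNReal.ofReal (1 / (2 * l)) := by
  rw [← ofReal_integral_eq_lintegral_ofReal]
  · apply ENNReal.ofReal_le_ofReal
    have h1 := int_half l r hl hr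
    rw [intervalIntegral.integral_of_le (by positivity)] at h1
    rw [integral_Icc_eq_integral_Ioc]
    refine le_trans (le_of_eq ?_) h1
    refine setIntegral_congr_fun measurableSet_Ioc fun z hz => ?_
    simp only [abs_of_pos hz.1]
  · apply ContinuousOn.integrableOn_compact isCompact_Icc
    fun_prop
  · exact Filter.Eventually.of_forall fun z => by positivity

theorem lint_half' (l r : ℝ) (hl : 0 < l) (hr : 0 < r) :
    ∫⁻ z in Set.Icc (-(1 / r)) 0, ENNReal.ofReal
      (r ^ 2 * |z| * Real.exp (-(l * (1 - r ^ 2 * z ^ 2)))) ≤ ENNReal.ofReal (1 / (2 * l)) := by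
  have h1 := lint_half l r hl hr
  have h2 : MeasurePreserving (fun z : ℝ => -z) (volume.restrict (Set.Icc (-(1 / r)) 0))
      (volume.restrict (Set.Icc (0:ℝ) (1 / r))) := by
    have h3 := (Measure.measurePreserving_neg (volume : Measure ℝ)).restrict_preimage
      (s := Set.Icc (0:ℝ) (1 / r)) measurableSet_Icc
    have h4 : Neg.neg ⁻¹' Set.Icc (0:ℝ) (1 / r) = Set.Icc (-(1 / r)) 0 := by
      ext z
      simp only [Set.mem_preimage, Set.mem_Icc]
      constructor
      · rintro ⟨a, b⟩
        exact ⟨by linarith, by linarith⟩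
      · rintro ⟨a, b⟩
        exact ⟨by linarith, by linarith⟩
    rw [h4] at h3
    exact h3
  rw [← h2.lintegral_comp (by fun_prop)] at h1
  refine le_trans (le_of_eq ?_) h1
  refine lintegral_congr fun z => ?_
  rw [abs_neg, neg_sq]

theorem slab (d : ℕ) (l : ℝ) (hl : 0 < l) (v : E d) :
    ∫⁻ a, fw l ⟪a, v⟫ ∂(gm d) ≤ ENNReal.ofReal (2 / l) := by
  by_cases hv : v = 0
  · have : ∀ a : E d, fw l ⟪a, v⟫ = ENNReal.ofReal (Real.exp (-l)) := by
      intro a
      rw [hv, inner_zero_right]
      simp [fw]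
    simp_rw [this]
    rw [lintegral_const, measure_univ, mul_one]
    apply ENNReal.ofReal_le_ofReal
    rw [le_div_iff₀ hl]
    have h1 := Real.add_one_le_exp l
    have h2 : Real.exp (-l) * Real.exp l = 1 := by
      rw [← Real.exp_add]
      simp
    have h3 := Real.exp_pos (-l)
    nlinarith
  · have hr : 0 < ‖v‖ := norm_pos_iff.2 hv
    set r := ‖v‖ with hrd
    have hθ : ‖r⁻¹ • v‖ = 1 := by
      rw [norm_smul, norm_inv, Real.norm_of_nonneg hr.le, ← hrd, inv_mul_cancel₀ hr.ne']
    have hfm : Measurable (fun z => fw l (r * z)) := (fw_meas l).comp (measurable_const_mul r)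
    have h1 : ∫⁻ a, fw l ⟪a, v⟫ ∂(gm d) = ∫⁻ z, fw l (r * z) ∂g1 := by
      rw [← map_inner _ hθ, lintegral_map hfm (by fun_prop)]
      refine lintegral_congr fun a => ?_
      rw [inner_smul_right, ← mul_assoc, mul_inv_cancel₀ hr.ne', one_mul]
    rw [h1]
    unfold g1
    rw [gaussianReal_of_var_ne_zero 0 one_ne_zero,
      lintegral_withDensity_eq_lintegral_mul _ (measurable_gaussianPDF 0 1) hfm]
    set A : Set ℝ := Set.Icc (-(1 / r)) (1 / r) with hA
    set h : ℝ → ℝ≥0∞ := fun z => ENNReal.ofReal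
      (r ^ 2 * |z| * Real.exp (-(l * (1 - r ^ 2 * z ^ 2)))) with hh
    have hpt : ∀ z : ℝ, (gaussianPDF 0 1 * fun z => fw l (r * z)) z ≤
        ENNReal.ofReal (Real.exp (-(3 / 4 * l))) * gaussianPDF 0 1 z +
        ENNReal.ofReal (4 / 3) * A.indicator h z := by
      intro z
      simp only [Pi.mul_apply]
      by_cases hz1 : |r * z| ≤ 1
      · by_cases hz2 : |r * z| ≤ 1 / 2
        · refine le_trans ?_ le_self_add
          rw [mul_comm]
          refine mul_le_mul' ?_ le_rfl
          unfold fw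
          rw [if_pos hz1]
          apply ENNReal.ofReal_le_ofReal
          apply Real.exp_le_exp.2
          have h3 : (r * z) ^ 2 ≤ (1 / 2) ^ 2 := sq_le_sq' (by linarith [neg_abs_le (r * z)])
            (by linarith [le_abs_self (r * z)])
          nlinarith
        · refine le_trans ?_ le_add_self
          have hzA : z ∈ A := by
            rw [abs_mul, abs_of_pos hr] at hz1
            have h3 : |z| ≤ 1 / r := by
              rw [le_div_iff₀ hr]
              linarith
            exact Set.mem_Icc.2 (abs_le.1 h3)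
          rw [Set.indicator_of_mem hzA, hh]
          unfold fw
          rw [if_pos hz1]
          unfold gaussianPDF
          rw [← ENNReal.ofReal_mul (gaussianPDFReal_nonneg _ _ _),
            ← ENNReal.ofReal_mul (by norm_num)]
          apply ENNReal.ofReal_le_ofReal
          have hz2' : 1 / 2 < r * |z| := by
            rw [abs_mul, abs_of_pos hr] at hz2
            linarith
          have hz0 : 0 < |z| := by
            by_contra hc
            have : |z| = 0 := le_antisymm (not_lt.1 hc) (abs_nonneg z)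
            rw [this, mul_zero] at hz2'
            linarith
          have h3 := ph_bound z
          have h4 : gaussianPDFReal 0 1 z ≤ 4 / 3 * (r ^ 2 * |z|) := by
            have h5 : (1/4 : ℝ) ≤ r ^ 2 * |z| ^ 2 := by nlinarith
            have h6 : |z| * gaussianPDFReal 0 1 z ≤ |z| * (4 / 3 * (r ^ 2 * |z|)) := by
              calc |z| * gaussianPDFReal 0 1 z ≤ 1 / 3 := h3
                _ ≤ 4 / 3 * (r ^ 2 * |z| ^ 2) := by linarith
                _ = |z| * (4 / 3 * (r ^ 2 * |z|)) := by ring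
            exact le_of_mul_le_mul_left h6 hz0
          have e : -(l * (1 - (r * z) ^ 2)) = -(l * (1 - r ^ 2 * z ^ 2)) := by ring
          rw [e]
          calc gaussianPDFReal 0 1 z * Real.exp (-(l * (1 - r ^ 2 * z ^ 2)))
              ≤ 4 / 3 * (r ^ 2 * |z|) * Real.exp (-(l * (1 - r ^ 2 * z ^ 2))) :=
                mul_le_mul_of_nonneg_right h4 (Real.exp_pos _).le
            _ = _ := by ring
      · unfold fw
        rw [if_neg hz1, mul_zero]
        exact bot_le
    refine (lintegral_mono hpt).trans ?_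
    have hhm : Measurable (A.indicator h) := by
      refine Measurable.indicator ?_ measurableSet_Icc
      rw [hh]
      fun_prop
    rw [lintegral_add_right _ (hhm.const_mul _), lintegral_const_mul _ (measurable_gaussianPDF 0 1),
      lintegral_gaussianPDF_eq_one 0 one_ne_zero, mul_one, lintegral_const_mul _ hhm,
      lintegral_indicator measurableSet_Icc]
    have hu : A ⊆ Set.Icc (-(1 / r)) 0 ∪ Set.Icc 0 (1 / r) := by
      intro z hz
      rcases le_total z 0 with hz0 | hz0
      · exact Or.inl ⟨hz.1, hz0⟩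
      · exact Or.inr ⟨hz0, hz.2⟩
    have h5 : ∫⁻ z in A, h z ≤ ENNReal.ofReal (1 / l) := by
      calc ∫⁻ z in A, h z ≤ ∫⁻ z in (Set.Icc (-(1 / r)) 0 ∪ Set.Icc 0 (1 / r)), h z :=
            lintegral_mono_set hu
        _ ≤ (∫⁻ z in Set.Icc (-(1 / r)) 0, h z) + ∫⁻ z in Set.Icc 0 (1 / r), h z :=
            lintegral_union_le _ _ _
        _ ≤ ENNReal.ofReal (1 / (2 * l)) + ENNReal.ofReal (1 / (2 * l)) :=
            add_le_add (lint_half' l r hl hr) (lint_half l r hl hr)
        _ = ENNReal.ofReal (1 / l) := by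
            rw [← ENNReal.ofReal_add (by positivity) (by positivity)]
            congr 1
            field_simp
            norm_num
    calc ENNReal.ofReal (Real.exp (-(3 / 4 * l))) + ENNReal.ofReal (4 / 3) * ∫⁻ z in A, h z
        ≤ ENNReal.ofReal (Real.exp (-(3 / 4 * l))) + ENNReal.ofReal (4 / 3) * ENNReal.ofReal (1 / l) := by
          gcongr
      _ = ENNReal.ofReal (Real.exp (-(3 / 4 * l)) + 4 / 3 * (1 / l)) := by
          rw [← ENNReal.ofReal_mul (by norm_num), ← ENNReal.ofReal_add (Real.exp_pos _).le (by positivity)]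
      _ ≤ ENNReal.ofReal (2 / l) := by
          apply ENNReal.ofReal_le_ofReal
          have h6 : Real.exp (-(3 / 4 * l)) ≤ 2 / 3 / l := by
            rw [le_div_iff₀ hl]
            have h7 := Real.quadratic_le_exp_of_nonneg (x := 3 / 4 * l) (by positivity)
            have h8 : Real.exp (-(3 / 4 * l)) * Real.exp (3 / 4 * l) = 1 := by
              rw [← Real.exp_add]
              simp
            have h9 : l ≤ 2 / 3 * Real.exp (3 / 4 * l) := by
              nlinarith [sq_nonneg (l - 2)]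
            have h10 := mul_le_mul_of_nonneg_left h9 (Real.exp_pos (-(3 / 4 * l))).le
            nlinarith
          have : 4 / 3 * (1 / l) + 2 / 3 / l = 2 / l := by
            field_simp
            norm_num
          linarith

end Pool.Agent.J4H48.RS
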