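import Pool.Agent.J4H48.RS.Geo
import Pool.Agent.J4H48.RS.Slab

/-!
# The number of exceptional vertices
-/

set_option autoImplicit false

open MeasureTheory ProbabilityTheory Filter Topology
open scoped RealInnerProductSpace ENNReal Matrix

namespace Pool.Agent.J4H48.RS

open Pool.Agent.PZ871 (E gm)
open Pool.Agent.TH84.HC
open Pool.Agent.J4H48.RP

variable {d N : ℕ}

theorem exc_meas (β : ℝ) (c : Cand d N {1, -1}) : MeasurableSet (ExcC β c) := by
  have hvm : Measurable (fun g : Fin N → E d => vv (fun _ => 1) c g) := by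
    unfold vv hh
    apply (V_meas measurable_const _).comp
    exact measurable_pi_iff.2 fun i => measurable_pi_apply _
  have h0 : ∀ j : Fin N, Measurable (fun g : Fin N → E d => ⟪g j, vv (fun _ => 1) c g⟫) :=
    fun j => (measurable_pi_apply j).inner hvm
  have : ExcC β c = (⋂ j, ⋂ (_ : j ∉ c.1.1), {g | |⟪g j, vv (fun _ => 1) c g⟫| ≤ 1}) ∩
      {g | ∑ j : {i : Fin N // i ∉ c.1.1}, (1 - ⟪g j, vv (fun _ => 1) c g⟫ ^ 2) < β * N} := by
    ext z
    simp [ExcC]
  rw [this]
  refine (MeasurableSet.iInter fun j => MeasurableSet.iInter fun _ =>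
    measurableSet_le (h0 j).norm measurable_const).inter ?_
  refine measurableSet_lt ?_ measurable_const
  exact Finset.measurable_sum _ fun j _ => ((h0 j).pow_const 2).const_sub 1

theorem exc_le (β l : ℝ) (hl : 0 < l) (c : Cand d N {1, -1}) :
    (Measure.pi fun _ : Fin N => gm d) (ExcC β c) ≤
      ENNReal.ofReal (Real.exp (l * (β * N))) * ENNReal.ofReal (2 / l) ^ (N - d) := by
  classical
  set A : Set (E d × ({i : Fin N // i ∉ c.1.1} → E d)) :=
    {z | (∀ j, |⟪z.2 j, z.1⟫| ≤ 1) ∧ ∑ j, (1 - ⟪z.2 j, z.1⟫ ^ 2) < β * N} with hA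
  have hAm : MeasurableSet A := by
    have : A = (⋂ j, {z | |⟪z.2 j, z.1⟫| ≤ 1}) ∩ {z | ∑ j, (1 - ⟪z.2 j, z.1⟫ ^ 2) < β * N} := by
      ext z
      simp [hA]
    rw [this]
    refine (MeasurableSet.iInter fun j => ?_).inter ?_
    · exact measurableSet_le (by fun_prop) measurable_const
    · exact measurableSet_lt (by fun_prop) measurable_const
  have h1 : ExcC β c ⊆ {g | (WW (fun _ => 1) c (res1 c.1.1 g), res2 c.1.1 g) ∈ A} := by
    intro g hg
    exact ⟨fun j => hg.1 j j.2, hg.2⟩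
  refine (measure_mono h1).trans (fub (gm d) c.1.1 (WW (fun _ => 1) c)
    (WW_meas measurable_const c) A hAm _ fun v => ?_)
  set f : ({i : Fin N // i ∉ c.1.1} → E d) → ℝ≥0∞ :=
    fun y => ENNReal.ofReal (Real.exp (l * (β * N))) * ∏ j, fw l ⟪y j, v⟫ with hf
  have hfm1 : Measurable (fun y : {i : Fin N // i ∉ c.1.1} → E d => ∏ j, fw l ⟪y j, v⟫) :=
    Finset.measurable_prod _ fun j _ => (fw_meas l).comp (by fun_prop)
  have hfm : Measurable f := hfm1.const_mul _
  have hsub : {y : {i : Fin N // i ∉ c.1.1} → E d | (v, y) ∈ A} ⊆ {y | 1 ≤ f y} := by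
    rintro y ⟨hy1, hy2⟩
    show 1 ≤ ENNReal.ofReal (Real.exp (l * (β * N))) * ∏ j, fw l ⟪y j, v⟫
    have h2 : ∀ j, fw l ⟪y j, v⟫ = ENNReal.ofReal (Real.exp (-(l * (1 - ⟪y j, v⟫ ^ 2)))) := by
      intro j
      unfold fw
      rw [if_pos (hy1 j)]
    simp_rw [h2]
    rw [← ENNReal.ofReal_prod_of_nonneg fun i _ => (Real.exp_pos _).le, ← Real.exp_sum,
      ← ENNReal.ofReal_mul (Real.exp_pos _).le, ← Real.exp_add, ← ENNReal.ofReal_one]
    apply ENNReal.ofReal_le_ofReal
    apply Real.one_le_exp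
    rw [Finset.sum_neg_distrib, ← Finset.mul_sum]
    have hy2' : ∑ j, (1 - ⟪y j, v⟫ ^ 2) < β * N := hy2
    have := mul_lt_mul_of_pos_left hy2' hl
    linarith
  have h3 := meas_ge_le_lintegral_div (μ := Measure.pi fun _ : {i : Fin N // i ∉ c.1.1} => gm d)
    hfm.aemeasurable one_ne_zero ENNReal.one_ne_top
  rw [div_one] at h3
  refine (measure_mono hsub).trans (h3.trans ?_)
  rw [hf, lintegral_const_mul _ hfm1]
  refine mul_le_mul' le_rfl ?_
  rw [lint_prod (fun _ : {i : Fin N // i ∉ c.1.1} => gm d) (fun _ a => fw l ⟪a, v⟫)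
    fun j => (fw_meas l).comp (by fun_prop)]
  have h4 : Fintype.card {i : Fin N // i ∉ c.1.1} = N - d := by
    rw [Fintype.card_subtype_compl, Fintype.card_fin, Fintype.card_coe, c.1.2]
  rw [← h4, ← Finset.card_univ]
  exact Finset.prod_le_pow_card _ _ _ fun i _ => slab d l hl v

/-- Markov's inequality for the number of exceptional candidates -/
theorem exc_markov (β l : ℝ) (hl : 0 < l) (y : ℝ) (hy : 0 < y) :
    (Measure.pi fun _ : Fin N => gm d) {g | y ≤ excN β g} ≤
      ENNReal.ofReal ((N.choose d : ℝ) * 2 ^ d * (Real.exp (l * (β * N)) * (2 / l) ^ (N - d)) / y) := by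
  classical
  set P := (Measure.pi fun _ : Fin N => gm d) with hP
  set X : (Fin N → E d) → ℝ≥0∞ := fun g => ∑ c : Cand d N {1, -1}, (ExcC β c).indicator 1 g with hX
  have hXm : Measurable X :=
    Finset.measurable_sum _ fun c _ => measurable_one.indicator (exc_meas β c)
  have hXe : ∀ g, X g = (excN β g : ℝ≥0∞) := by
    intro g
    simp only [hX, Set.indicator_apply, Pi.one_apply]
    rw [Finset.sum_boole]
    rfl
  set q : ℝ≥0∞ := ENNReal.ofReal (Real.exp (l * (β * N))) * ENNReal.ofReal (2 / l) ^ (N - d) with hq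
  have hXint : ∫⁻ g, X g ∂P ≤ (N.choose d : ℝ≥0∞) * (2 : ℝ≥0∞) ^ d * q := by
    rw [hX, lintegral_finsetSum _ fun c _ => measurable_one.indicator (exc_meas β c)]
    calc ∑ c : Cand d N {1, -1}, ∫⁻ g, (ExcC β c).indicator 1 g ∂P
        = ∑ c : Cand d N {1, -1}, P (ExcC β c) :=
          Finset.sum_congr rfl fun c _ => lintegral_indicator_one (exc_meas β c)
      _ ≤ ∑ c : Cand d N {1, -1}, q := Finset.sum_le_sum fun c _ => exc_le β l hl c
      _ = (N.choose d : ℝ≥0∞) * (2 : ℝ≥0∞) ^ d * q := by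
          rw [Finset.sum_const, Finset.card_univ, card_cand, nsmul_eq_mul]
          have : ({1, -1} : Finset ℝ).card = 2 := by
            rw [Finset.card_pair (by norm_num)]
          rw [this]
          push_cast
          ring
  have hsub : {g : Fin N → E d | y ≤ excN β g} ⊆ {g | ENNReal.ofReal y ≤ X g} := by
    intro g hg
    show ENNReal.ofReal y ≤ X g
    rw [hXe, ← ENNReal.ofReal_natCast]
    exact ENNReal.ofReal_le_ofReal hg
  have hmk := meas_ge_le_lintegral_div (μ := P) hXm.aemeasurable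
    (ENNReal.ofReal_pos.2 hy).ne' ENNReal.ofReal_ne_top
  refine (measure_mono hsub).trans (hmk.trans ((ENNReal.div_le_div_right hXint _).trans (le_of_eq ?_)))
  rw [ENNReal.ofReal_div_of_pos hy, ENNReal.ofReal_mul (by positivity),
    ENNReal.ofReal_mul (by positivity), ENNReal.ofReal_mul (by positivity),
    ENNReal.ofReal_natCast, ENNReal.ofReal_pow (by norm_num), ENNReal.ofReal_ofNat,
    ENNReal.ofReal_pow (by positivity)]

end Pool.Agent.J4H48.RS
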