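import Pool.Agent.J4H48.RS.Cnt
import Pool.Agent.J4H48.RP.AsyB

/-!
# The probability of the good event
-/

set_option autoImplicit false

open MeasureTheory ProbabilityTheory Filter Topology
open scoped RealInnerProductSpace ENNReal Matrix

namespace Pool.Agent.J4H48.RS

open Pool.Agent.PZ871 (E gm)
open Pool.Agent.TH84.HC
open Pool.Agent.J4H48.RP

variable {d N : ℕ}

theorem core_prob (hd : 1 ≤ d) (hdN : d ≤ N) (t s β l y R : ℝ) (hs0 : 0 ≤ s)
    (hs : s * (1 - t) < 1) (ht : 0 < t) (hl : 0 < l) (hy : 0 < y) (hR : 1 ≤ R)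
    (hRt : t * ((1 - β) * N) ≤ R ^ 2) :
    Law d N {g | ¬ Good (y + bnd d d R) (Sec g)} ≤
      N * (ENNReal.ofReal ((1 - s * (1 - t)) ^ (-(1 / 2 : ℝ))) ^ d *
      ENNReal.ofReal ((1 + s * t) ^ (-(1 / 2 : ℝ))) ^ (N - d)) +
      ENNReal.ofReal ((N.choose d : ℝ) * 2 ^ d *
        (Real.exp (l * (β * N)) * (2 / l) ^ (N - d)) / y) := by
  classical
  have h1 : ∀ᵐ g ∂(Law d N), (∀ (s : Finset (Fin N)) (hs : s.card = d),
        LinearIndependent ℝ (fun i => g (s.orderEmbOfFin hs i))) ∧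
      (∀ c : Cand d N {1, -1}, g ∉ NullC (fun _ => 1) c) := by
    refine Filter.Eventually.and ?_ ?_
    · filter_upwards [gp_ae d N] with g hg s hs
      have h3 := (hg s hs.le).comp (fun i => s.orderIsoOfFin hs i) (s.orderIsoOfFin hs).injective
      exact h3
    rw [ae_all_iff]
    intro c
    rw [ae_iff]
    have h2 : {g : Fin N → E d | ¬ g ∉ NullC (fun _ => 1) c} = NullC (fun _ => 1) c := by
      ext g
      simp
    rw [h2]
    exact RP.nullC_zero (gm d) measurable_const (fun v τ _ => null_one v τ) c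
  have h2 : Law d N {g | ¬ Good (y + bnd d d R) (Sec g)} ≤
      Law d N ({g | ¬ Lev t g} ∪ {g | y ≤ excN β g}) := by
    refine measure_mono_ae ?_
    filter_upwards [h1] with g hg hbad
    by_contra hcon
    have hcon' : ¬ (¬ Lev t g ∨ y ≤ excN β g) := hcon
    push Not at hcon'
    apply hbad
    obtain ⟨hb, T, hT, hcov⟩ := det hd hdN g hg.1 hg.2 t ht hcon'.1 β R hR hRt
    exact ⟨hb, T, hT.trans (by linarith [hcon'.2]), hcov⟩
  refine h2.trans ((measure_union_le _ _).trans (add_le_add ?_ ?_))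
  · exact lev_prob hdN (hd.trans hdN) t s hs0 hs ht.le
  · exact exc_markov β l hl y hy

/-- a term of the binomial theorem -/
theorem choose_single (N d : ℕ) (hdN : d ≤ N) (c : ℝ) (hc : 1 < c) :
    (N.choose d : ℝ) ≤ c ^ d * (c / (c - 1)) ^ (N - d) := by
  have hc1 : 0 < c - 1 := by linarith
  set p : ℝ := 1 / c with hp
  set p' : ℝ := (c - 1) / c with hp'
  have hp0 : 0 < p := by positivity
  have hp0' : 0 < p' := by positivity
  have hpp : p + p' = 1 := by rw [hp, hp']; field_simp; ring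
  have h2 : p ^ d * p' ^ (N - d) * (N.choose d : ℝ) ≤ 1 := by
    have h3 := add_pow p p' N
    rw [hpp, one_pow] at h3
    rw [h3]
    exact Finset.single_le_sum (f := fun m => p ^ m * p' ^ (N - m) * (N.choose m : ℝ))
      (fun m _ => by positivity) (Finset.mem_range.2 (by omega))
  have h4 : c ^ d * (c / (c - 1)) ^ (N - d) * (p ^ d * p' ^ (N - d)) = 1 := by
    have e1 : c * p = 1 := by rw [hp]; field_simp
    have e2 : c / (c - 1) * p' = 1 := by rw [hp']; field_simp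
    calc c ^ d * (c / (c - 1)) ^ (N - d) * (p ^ d * p' ^ (N - d)) =
        (c * p) ^ d * (c / (c - 1) * p') ^ (N - d) := by rw [mul_pow, mul_pow]; ring
      _ = 1 := by rw [e1, e2, one_pow, one_pow, one_mul]
  calc (N.choose d : ℝ) =
      c ^ d * (c / (c - 1)) ^ (N - d) * (p ^ d * p' ^ (N - d) * (N.choose d : ℝ)) := by
        rw [← mul_assoc, h4, one_mul]
    _ ≤ c ^ d * (c / (c - 1)) ^ (N - d) * 1 :=
        mul_le_mul_of_nonneg_left h2 (by positivity)
    _ = _ := mul_one _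

/-- the exceptional vertices, numerically -/
theorem num_exc (hdN : d ≤ N) (δ : ℝ) (hδ : 0 < δ) (hδ1 : δ ≤ 1) (hN : (1 + δ) * d ≤ N) :
    (N.choose d : ℝ) * 2 ^ d *
      (Real.exp (220 / δ * (δ ^ 2 / 440 * N)) * (2 / (220 / δ)) ^ (N - d)) /
        (2 ^ d * Real.exp (-((N : ℝ) - d))) ≤ Real.exp (-((N : ℝ) - d)) := by
  set k : ℕ := N - d with hk
  have hkr : (k : ℝ) = (N : ℝ) - d := by
    rw [hk, Nat.cast_sub hdN]
  have hd0 : (0:ℝ) ≤ d := Nat.cast_nonneg _
  have hkd : δ * d ≤ k := by rw [hkr]; linarith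
  have h1 : (N.choose d : ℝ) ≤ Real.exp k * (2 / δ) ^ k := by
    have h2 := choose_single N d hdN (1 + δ) (by linarith)
    have e : 1 + δ - 1 = δ := by ring
    rw [e, ← hk] at h2
    refine h2.trans ?_
    refine mul_le_mul ?_ ?_ (by positivity) (Real.exp_pos _).le
    · calc (1 + δ) ^ d ≤ (Real.exp δ) ^ d := by
            apply pow_le_pow_left₀ (by linarith)
            linarith [Real.add_one_le_exp δ]
        _ = Real.exp (δ * d) := by rw [← Real.exp_nat_mul, mul_comm]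
        _ ≤ Real.exp k := Real.exp_le_exp.2 hkd
    · apply pow_le_pow_left₀ (by positivity)
      gcongr
      linarith
  have h2 : Real.exp (220 / δ * (δ ^ 2 / 440 * N)) ≤ Real.exp k := by
    apply Real.exp_le_exp.2
    have e : 220 / δ * (δ ^ 2 / 440 * N) = δ * N / 2 := by
      field_simp
      ring
    rw [e]
    have : (N : ℝ) = k + d := by rw [hkr]; ring
    rw [this]
    nlinarith [Nat.cast_nonneg (α := ℝ) k]
  have h3 : (2 / (220 / δ)) = δ / 110 := by
    field_simp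
    norm_num
  rw [h3, ← hkr]
  have h4 : (0:ℝ) < 2 ^ d * Real.exp (-(k : ℝ)) := by positivity
  rw [div_le_iff₀ h4]
  have h5 : Real.exp 4 ≤ 55 := by
    have h6 := Real.exp_one_lt_d9
    have h7 : Real.exp 4 = Real.exp 1 ^ 4 := by
      rw [← Real.exp_nat_mul]
      norm_num
    rw [h7]
    calc Real.exp 1 ^ 4 ≤ 2.7182818286 ^ 4 := pow_le_pow_left₀ (Real.exp_pos _).le h6.le 4
      _ ≤ 55 := by norm_num
  have h8 : Real.exp k * (2 / δ) ^ k * (Real.exp k * (δ / 110) ^ k) ≤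
      Real.exp (-(k : ℝ)) * Real.exp (-(k : ℝ)) := by
    have e1 : Real.exp (k : ℝ) = Real.exp 1 ^ k := by
      rw [← Real.exp_nat_mul, mul_one]
    have e2 : Real.exp (-(k : ℝ)) = Real.exp (-1) ^ k := by
      rw [← Real.exp_nat_mul]
      congr 1
      ring
    rw [e1, e2, ← mul_pow, ← mul_pow, ← mul_pow, ← mul_pow]
    apply pow_le_pow_left₀ (by positivity)
    have e3 : Real.exp 1 * (2 / δ) * (Real.exp 1 * (δ / 110)) = Real.exp 2 / 55 := by
      have : Real.exp 2 = Real.exp 1 * Real.exp 1 := by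
        rw [← Real.exp_add]
        norm_num
      rw [this]
      field_simp
      norm_num
    have e4 : Real.exp (-1) * Real.exp (-1) = Real.exp 2 / Real.exp 4 := by
      rw [← Real.exp_add, ← Real.exp_sub]
      norm_num
    rw [e3, e4]
    gcongr
  calc (N.choose d : ℝ) * 2 ^ d * (Real.exp (220 / δ * (δ ^ 2 / 440 * N)) * (δ / 110) ^ k)
      ≤ (Real.exp k * (2 / δ) ^ k) * 2 ^ d * (Real.exp k * (δ / 110) ^ k) := by gcongr
    _ = (Real.exp k * (2 / δ) ^ k * (Real.exp k * (δ / 110) ^ k)) * 2 ^ d := by ring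
    _ ≤ (Real.exp (-(k : ℝ)) * Real.exp (-(k : ℝ))) * 2 ^ d := by gcongr
    _ = _ := by ring

theorem one_add_le (ε : ℝ) (h0 : 0 ≤ ε) (h1 : ε ≤ 1) : 1 + ε ≤ Real.exp (ε - ε ^ 2 / 4) := by
  have h2 : 0 ≤ ε - ε ^ 2 / 4 := by nlinarith
  have h3 := Real.quadratic_le_exp_of_nonneg h2
  nlinarith [mul_nonneg h0 h0, mul_nonneg (mul_nonneg h0 h0) h0, mul_nonneg (mul_nonneg (mul_nonneg h0 h0) h0) h0,
    mul_nonneg (mul_nonneg h0 h0) (sub_nonneg.2 h1)]

/-- the leverage scores, numerically -/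
theorem num_lev (hd : 1 ≤ d) (hdN : d ≤ N) (ε : ℝ) (h0 : 0 < ε) (h1 : ε ≤ 1)
    (hN : ε * d < (N : ℝ) - d) (t s : ℝ) (ht : t = (1 + ε) * d / N)
    (hs : s = ε / ((1 + ε) * (1 - t))) :
    0 < t ∧ 0 ≤ s ∧ s * (1 - t) < 1 ∧
    (N : ℝ≥0∞) * (ENNReal.ofReal ((1 - s * (1 - t)) ^ (-(1 / 2 : ℝ))) ^ d *
      ENNReal.ofReal ((1 + s * t) ^ (-(1 / 2 : ℝ))) ^ (N - d)) ≤
      ENNReal.ofReal (N * Real.exp (-(d * ε ^ 2 / 8))) := by
  have hd0 : (0:ℝ) < d := by exact_mod_cast hd
  have hN0 : (0:ℝ) < N := by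
    have : (d : ℝ) ≤ N := by exact_mod_cast hdN
    linarith
  set k : ℕ := N - d with hk
  have hkr : (k : ℝ) = (N : ℝ) - d := by
    rw [hk, Nat.cast_sub hdN]
  have hk0 : (0:ℝ) < k := by
    rw [hkr]
    have : 0 < ε * d := by positivity
    linarith
  have ht1 : t < 1 := by
    rw [ht, div_lt_one hN0]
    linarith
  have ht0 : 0 < t := by rw [ht]; positivity
  have h1t : 0 < 1 - t := by linarith
  have e1 : s * (1 - t) = ε / (1 + ε) := by
    rw [hs]
    field_simp
  have e2 : 1 - s * (1 - t) = (1 + ε)⁻¹ := by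
    rw [e1]
    field_simp
    ring
  have hNt : (N : ℝ) * (1 - t) = k - ε * d := by
    rw [ht, hkr]
    field_simp
    ring
  have hkε : 0 < (k : ℝ) - ε * d := by rw [hkr]; linarith
  have e3 : (1 + s * t) = (1 - ε * d / k)⁻¹ := by
    have h2 : s * t = ε * d / (k - ε * d) := by
      rw [← hNt, hs, ht]
      field_simp
    rw [h2]
    have : 1 - ε * d / k = (k - ε * d) / k := by field_simp
    rw [this, inv_div]
    field_simp
    ring
  refine ⟨ht0, by rw [hs]; positivity, by rw [e1, div_lt_one (by linarith)]; linarith, ?_⟩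
  have hpos3 : 0 < 1 - ε * d / k := by
    have : 1 - ε * d / k = (k - ε * d) / k := by field_simp
    rw [this]
    positivity
  have b1 : (1 - s * (1 - t)) ^ (-(1 / 2 : ℝ)) ≤ Real.exp ((ε - ε ^ 2 / 4) / 2) := by
    rw [e2, Real.inv_rpow (by linarith), Real.rpow_neg (by linarith), inv_inv]
    calc (1 + ε) ^ (1 / 2 : ℝ) ≤ (Real.exp (ε - ε ^ 2 / 4)) ^ (1 / 2 : ℝ) := by
          apply Real.rpow_le_rpow (by linarith) (one_add_le ε h0.le h1) (by norm_num)
      _ = _ := by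
          rw [← Real.exp_mul]
          congr 1
          ring
  have b2 : (1 + s * t) ^ (-(1 / 2 : ℝ)) ≤ Real.exp (-(ε * d / k) / 2) := by
    rw [e3, Real.inv_rpow hpos3.le, Real.rpow_neg hpos3.le, inv_inv]
    calc (1 - ε * d / k) ^ (1 / 2 : ℝ) ≤ (Real.exp (-(ε * d / k))) ^ (1 / 2 : ℝ) := by
          apply Real.rpow_le_rpow hpos3.le _ (by norm_num)
          linarith [Real.add_one_le_exp (-(ε * d / k))]
      _ = _ := by
          rw [← Real.exp_mul]
          congr 1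
          ring
  calc (N : ℝ≥0∞) * (ENNReal.ofReal ((1 - s * (1 - t)) ^ (-(1 / 2 : ℝ))) ^ d *
      ENNReal.ofReal ((1 + s * t) ^ (-(1 / 2 : ℝ))) ^ k)
      ≤ (N : ℝ≥0∞) * (ENNReal.ofReal (Real.exp ((ε - ε ^ 2 / 4) / 2)) ^ d *
      ENNReal.ofReal (Real.exp (-(ε * d / k) / 2)) ^ k) := by gcongr
    _ = ENNReal.ofReal (N * (Real.exp ((ε - ε ^ 2 / 4) / 2) ^ d *
          Real.exp (-(ε * d / k) / 2) ^ k)) := by
        rw [ENNReal.ofReal_mul (Nat.cast_nonneg _), ENNReal.ofReal_natCast,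
          ENNReal.ofReal_mul (by positivity), ENNReal.ofReal_pow (Real.exp_pos _).le,
          ENNReal.ofReal_pow (Real.exp_pos _).le]
    _ = _ := by
        rw [← Real.exp_nat_mul, ← Real.exp_nat_mul, ← Real.exp_add]
        congr 3
        field_simp
        ring

end Pool.Agent.J4H48.RS
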