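import Pool.Agent.J4H48.RS.Lev

/-!
# The deterministic part: the ellipsoid of a matrix with uniform leverage scores
-/

set_option autoImplicit false

open MeasureTheory ProbabilityTheory Filter Topology
open scoped RealInnerProductSpace ENNReal Matrix

namespace Pool.Agent.J4H48.RS

open Pool.Agent.PZ871 (E gm)
open Pool.Agent.TH84.HC
open Pool.Agent.J4H48.RP
open Pool.Agent.J4H48.RQ (act_le poly_corner_d not_rec)

variable {d N : ℕ}

/-- an invertible map with prescribed quadratic form -/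
theorem ell (L : E d →ₗ[ℝ] E N) (hL : Function.Injective L) (t : ℝ) (ht : 0 < t) :
    ∃ A : E d ≃L[ℝ] E d, ∀ x, ‖A x‖ ^ 2 = t * ‖L x‖ ^ 2 := by
  have hfr : Module.finrank ℝ (LinearMap.range L) = d := by
    rw [LinearMap.finrank_range_of_inj hL, finrank_euclideanSpace_fin]
  let b : OrthonormalBasis (Fin d) ℝ (LinearMap.range L) :=
    (stdOrthonormalBasis ℝ (LinearMap.range L)).reindex (finCongr hfr)
  let A₀ : E d ≃ₗ[ℝ] E d := (LinearEquiv.ofInjective L hL).trans b.repr.toLinearEquiv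
  have hs : 0 < Real.sqrt t := Real.sqrt_pos.2 ht
  let A₁ : E d ≃ₗ[ℝ] E d := A₀.trans (LinearEquiv.smulOfNeZero ℝ (E d) (Real.sqrt t) hs.ne')
  refine ⟨A₁.toContinuousLinearEquiv, fun x => ?_⟩
  have h1 : A₁.toContinuousLinearEquiv x = Real.sqrt t • b.repr (LinearEquiv.ofInjective L hL x) :=
    rfl
  rw [h1, norm_smul, mul_pow, LinearIsometryEquiv.norm_map, Real.norm_of_nonneg hs.le,
    Real.sq_sqrt ht.le]
  rfl

/-- the candidate satisfies the other inequalities with small total slack -/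
def ExcC (β : ℝ) (c : Cand d N {1, -1}) : Set (Fin N → E d) :=
  {g | (∀ j, j ∉ c.1.1 → |⟪g j, vv (fun _ => 1) c g⟫| ≤ 1) ∧
    ∑ j : {i : Fin N // i ∉ c.1.1}, (1 - ⟪g j, vv (fun _ => 1) c g⟫ ^ 2) < β * N}

/-- the symmetric polytope -/
def Sec (g : Fin N → E d) : Set (E d) := {x | ∀ i, |⟪g i, x⟫| ≤ 1}

theorem sec_eq (g : Fin N → E d) : Sec g = Poly {1, -1} (fun _ => 1) g := by
  ext x
  simp only [Sec, RP.Poly, Set.mem_ofPred_eq, Finset.mem_insert, Finset.mem_singleton,
    forall_eq_or_imp, forall_eq, one_mul, neg_mul]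
  refine forall_congr' fun i => ?_
  rw [abs_le]
  constructor
  · rintro ⟨h1, h2⟩
    exact ⟨h2, by linarith⟩
  · rintro ⟨h1, h2⟩
    exact ⟨by linarith, h1⟩

theorem hSpm : ∀ σ ∈ ({1, -1} : Finset ℝ), σ = 1 ∨ σ = -1 := by
  intro σ hσ
  simpa using hσ

open Classical in
/-- the number of exceptional candidates -/
noncomputable def excN (β : ℝ) (g : Fin N → E d) : ℕ :=
  (Finset.univ.filter fun c : Cand d N {1, -1} => g ∈ ExcC β c).card

theorem det (hd : 1 ≤ d) (hdN : d ≤ N) (g : Fin N → E d)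
    (hgp : ∀ (s : Finset (Fin N)) (hs : s.card = d),
      LinearIndependent ℝ (fun i => g (s.orderEmbOfFin hs i)))
    (hnull : ∀ c : Cand d N {1, -1}, g ∉ NullC (fun _ => 1) c) (t : ℝ) (ht : 0 < t)
    (hlev : Lev t g) (β R : ℝ) (hR : 1 ≤ R) (hRt : t * ((1 - β) * N) ≤ R ^ 2) :
    IsBody (Sec g) ∧ CoveredBy (excN β g + bnd d d R) (Sec g) := by
  classical
  have hg : ∀ i, g i ≠ 0 := by
    intro i
    obtain ⟨s, his, hs⟩ : ∃ s : Finset (Fin N), i ∈ s ∧ s.card = d := by
      obtain ⟨s, hs1, -, hs2⟩ := Finset.exists_subsuperset_card_eq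
        (s := {i}) (t := (Finset.univ : Finset (Fin N))) (n := d) (Finset.subset_univ _)
        (by rw [Finset.card_singleton]; omega)
        (by rw [Finset.card_univ, Fintype.card_fin]; exact hdN)
      exact ⟨s, hs1 (Finset.mem_singleton_self i), hs2⟩
    have hr : i ∈ Set.range (s.orderEmbOfFin hs) := by
      rw [Finset.range_orderEmbOfFin]
      exact his
    obtain ⟨k, hk⟩ := hr
    have := (hgp s hs).ne_zero k
    rwa [hk] at this
  have hb : ∀ i, 0 < (fun _ : E d => (1:ℝ)) (g i) := fun _ => one_pos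
  have hrec : ¬ Rec ({1, -1} : Finset ℝ) g := not_rec hdN (by simp) (by simp) hgp
  have hbody : IsBody (Sec g) := by
    rw [sec_eq]
    exact poly_body hd {1, -1} (fun _ => 1) g hb hrec
  refine ⟨hbody, ?_⟩
  have hinj : Function.Injective (yL g) := by
    rw [← LinearMap.ker_eq_bot, LinearMap.ker_eq_bot']
    intro x hx
    by_contra hx0
    apply hrec
    refine ⟨x, hx0, fun i σ hσ => ?_⟩
    have h1 : ⟪g i, x⟫ = 0 := by
      have := congrArg (fun v : E N => v i) hx
      exact this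
    rw [h1, mul_zero]
  obtain ⟨A, hA⟩ := ell (yL g) hinj t ht
  have hA' : ∀ x, ‖A x‖ ^ 2 = t * ∑ j, ⟪g j, x⟫ ^ 2 := by
    intro x
    rw [hA, ← yv_norm]
    rfl
  have hell : ContainsEllipsoid A 0 (Sec g) := by
    intro z hz i
    rw [sub_zero] at hz
    have h1 := hlev i z
    rw [← hA'] at h1
    have h2 : ‖A z‖ ^ 2 ≤ 1 := pow_le_one₀ (norm_nonneg _) hz
    exact abs_le_one_iff_mul_self_le_one.2 (by nlinarith)
  set F : Finset (E d) :=
    (Finset.univ.filter fun c : Cand d N {1, -1} => g ∈ ExcC β c).image fun c => vv (fun _ => 1) c g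
    with hF
  have hseen : ∀ x ∈ Set.extremePoints ℝ (Sec g), x ∉ F → Seen A d R (Sec g) x := by
    intro x hx hxF
    have hxK : x ∈ Sec g := extremePoints_subset hx
    have hfr : x ∈ frontier (Sec g) := extreme_frontier hd hx
    have hcorner : IsCorner d (Sec g) x := by
      rw [sec_eq] at hxK hfr ⊢
      exact poly_corner_d {1, -1} hSpm hb hg hgp hnull hxK hfr.2
    refine seen_of_corner hell ?_ hcorner
    rw [sub_zero]
    rw [sec_eq] at hx
    obtain ⟨s, hs, σ, hli, hv⟩ := ext_cand {1, -1} hSpm (fun _ => 1) g hx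
    set c : Cand d N {1, -1} := (⟨s, hs⟩, σ) with hc
    have hxv : x = vv (fun _ => 1) c g := V_unique (fun _ => 1) (fun i => (σ i : ℝ)) _ (det_of_li _ hli) x hv
    have hne : g ∉ ExcC β c := by
      intro hmem
      apply hxF
      rw [hF, Finset.mem_image]
      exact ⟨c, Finset.mem_filter.2 ⟨Finset.mem_univ _, hmem⟩, hxv.symm⟩
    have hslack : β * N ≤ ∑ j : {i : Fin N // i ∉ c.1.1}, (1 - ⟪g j, x⟫ ^ 2) := by
      by_contra hlt
      push Not at hlt
      apply hne
      refine ⟨fun j _ => ?_, ?_⟩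
      · rw [← hxv]
        exact hxK j
      · rw [← hxv]
        exact hlt
    have hsq : ∀ j, 0 ≤ 1 - ⟪g j, x⟫ ^ 2 := by
      intro j
      have := hxK j
      have h2 := (sq_le_one_iff_abs_le_one ⟪g j, x⟫).2 this
      linarith
    have hsum : ∑ j : {i : Fin N // i ∉ c.1.1}, (1 - ⟪g j, x⟫ ^ 2) ≤ ∑ j, (1 - ⟪g j, x⟫ ^ 2) := by
      rw [← Finset.sum_subtype (c.1.1ᶜ) (p := fun i => i ∉ c.1.1) (by simp)
        (fun j => (1 - ⟪g j, x⟫ ^ 2))]
      exact Finset.sum_le_sum_of_subset_of_nonneg (Finset.subset_univ _) fun j _ _ => hsq j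
    have hle : ‖A x‖ ^ 2 ≤ R ^ 2 := by
      rw [hA']
      have h1 : ∑ j, (1 - ⟪g j, x⟫ ^ 2) = N - ∑ j, ⟪g j, x⟫ ^ 2 := by
        rw [Finset.sum_sub_distrib]
        simp
      have h2 : ∑ j, ⟪g j, x⟫ ^ 2 ≤ (1 - β) * N := by linarith
      exact (mul_le_mul_of_nonneg_left h2 ht.le).trans hRt
    exact (sq_le_sq₀ (norm_nonneg _) (by linarith)).1 hle
  obtain ⟨T, hT, hcov⟩ := explicit_F d d hd R hR (Sec g) A hbody F hseen
  refine ⟨T, hT.trans ?_, hcov⟩
  have : F.card ≤ excN β g := Finset.card_image_le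
  have h2 : (F.card : ℝ) ≤ excN β g := by exact_mod_cast this
  linarith

end Pool.Agent.J4H48.RS
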