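import Pool.Agent.J4H48.RS.Pat

/-!
# One direction for all vertices with the same sign pattern
-/

set_option autoImplicit false

open MeasureTheory ProbabilityTheory Filter Topology
open scoped RealInnerProductSpace ENNReal Matrix

namespace Pool.Agent.J4H48.RS

open Pool.Agent.PZ871 (E gm)
open Pool.Agent.TH84.HC
open Pool.Agent.J4H48.RP

variable {d N : ℕ}

open Classical in
/-- the extreme points, as a finite set -/
noncomputable def vts (g : Fin N → E d) : Finset (E d) :=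
  (Finset.univ.image fun c : Cand d N {1, -1} => vv (fun _ => 1) c g).filter
    fun x => x ∈ Set.extremePoints ℝ (Sec g)

theorem mem_vts (g : Fin N → E d) (x : E d) :
    x ∈ vts g ↔ x ∈ Set.extremePoints ℝ (Sec g) := by
  classical
  unfold vts
  rw [Finset.mem_filter]
  constructor
  · exact fun h => h.2
  · intro h
    refine ⟨?_, h⟩
    have hx := h
    rw [sec_eq] at hx
    obtain ⟨s, hs, σ, hli, hv⟩ := ext_cand {1, -1} hSpm (fun _ => 1) g hx
    rw [Finset.mem_image]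
    exact ⟨(⟨s, hs⟩, σ), Finset.mem_univ _,
      (V_unique (fun _ => 1) (fun i => (σ i : ℝ)) _ (det_of_li _ hli) x hv).symm⟩

open Classical in
/-- the direction of a pattern -/
noncomputable def wv (g : Fin N → E d) (τ : Fin N → Bool) : E d :=
  -∑ x ∈ (vts g).filter fun x => pat (yv g x) = τ, x

theorem sec_interior (g : Fin N → E d) {z : E d} (hz : ∀ j, |⟪g j, z⟫| < 1) :
    z ∈ interior (Sec g) := by
  rw [mem_interior]
  refine ⟨⋂ j, {z : E d | |⟪g j, z⟫| < 1}, ?_, ?_, ?_⟩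
  · intro x hx j
    simp only [Set.mem_iInter] at hx
    exact (hx j).le
  · exact isOpen_iInter_of_finite fun j => isOpen_lt (by fun_prop) continuous_const
  · simp only [Set.mem_iInter]
    exact hz

theorem wv_ill (g : Fin N → E d) {x : E d} (hx : x ∈ Set.extremePoints ℝ (Sec g)) :
    ∃ t : ℝ, 0 < t ∧ x + t • wv g (pat (yv g x)) ∈ interior (Sec g) := by
  classical
  set τ := pat (yv g x) with hτ
  set S := (vts g).filter fun x => pat (yv g x) = τ with hS
  have hxS : x ∈ S := Finset.mem_filter.2 ⟨(mem_vts g x).2 hx, rfl⟩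
  have hxK : x ∈ Sec g := extremePoints_subset hx
  have hw : ∀ j, ⟪g j, wv g τ⟫ = -∑ x' ∈ S, ⟪g j, x'⟫ := by
    intro j
    unfold wv
    rw [inner_neg_right, inner_sum]
  -- vertices with the same pattern
  have hpair : ∀ x' ∈ S, ∀ j, 0 ≤ ⟪g j, x⟫ * ⟪g j, x'⟫ := by
    intro x' hx' j
    have h1 : pat (yv g x') = pat (yv g x) := (Finset.mem_filter.1 hx').2
    have h2 := congrFun h1 j
    simp only [pat, yv, decide_eq_decide] at h2
    by_cases h3 : 0 ≤ ⟪g j, x⟫
    · exact mul_nonneg h3 (h2.2 h3)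
    · have h4 : ¬ 0 ≤ ⟪g j, x'⟫ := fun h => h3 (h2.1 h)
      push Not at h3 h4
      exact (mul_pos_of_neg_of_neg h3 h4).le
  have hact : ∀ j, |⟪g j, x⟫| = 1 → ⟪g j, x⟫ * ⟪g j, wv g τ⟫ ≤ -1 := by
    intro j hj
    rw [hw, mul_neg, Finset.mul_sum, neg_le_neg_iff]
    have h1 : ⟪g j, x⟫ * ⟪g j, x⟫ = 1 := by
      have h2 := sq_abs ⟪g j, x⟫
      rw [hj] at h2
      nlinarith
    calc (1:ℝ) = ⟪g j, x⟫ * ⟪g j, x⟫ := h1.symm
      _ ≤ ∑ x' ∈ S, ⟪g j, x⟫ * ⟪g j, x'⟫ :=
        Finset.single_le_sum (f := fun x' => ⟪g j, x⟫ * ⟪g j, x'⟫) (fun x' hx' => hpair x' hx' j) hxS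
  have hev : ∀ᶠ t in 𝓝[>] (0:ℝ), ∀ j, |⟪g j, x + t • wv g τ⟫| < 1 := by
    rw [Filter.eventually_all]
    intro j
    have hc : Continuous (fun t : ℝ => ⟪g j, x + t • wv g τ⟫) := by fun_prop
    rcases (hxK j).lt_or_eq with hlt | heq
    · have h1 : ∀ᶠ t in 𝓝 (0:ℝ), |⟪g j, x + t • wv g τ⟫| < 1 :=
        hc.abs.continuousAt.eventually (gt_mem_nhds (by simpa using hlt))
      exact h1.filter_mono nhdsWithin_le_nhds
    · have h0 := hact j heq
      have h1 : ∀ᶠ t in 𝓝 (0:ℝ), 0 < ⟪g j, x⟫ * ⟪g j, x + t • wv g τ⟫ := by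
        have hc2 : Continuous (fun t : ℝ => ⟪g j, x⟫ * ⟪g j, x + t • wv g τ⟫) := by fun_prop
        refine hc2.continuousAt.eventually (lt_mem_nhds ?_)
        have h2 : ⟪g j, x⟫ * ⟪g j, x⟫ = 1 := by
          have h3 := sq_abs ⟪g j, x⟫
          rw [heq] at h3
          nlinarith
        simp only [zero_smul, add_zero, h2]
        exact one_pos
      have h2 : ∀ᶠ t in 𝓝[>] (0:ℝ), 0 < ⟪g j, x⟫ * ⟪g j, x + t • wv g τ⟫ :=
        h1.filter_mono nhdsWithin_le_nhds
      filter_upwards [h2, self_mem_nhdsWithin] with t ht ht0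
      have ht0' : (0:ℝ) < t := ht0
      have h3 : ⟪g j, x⟫ * ⟪g j, x + t • wv g τ⟫ < 1 := by
        have h2 : ⟪g j, x⟫ * ⟪g j, x⟫ = 1 := by
          have h3 := sq_abs ⟪g j, x⟫
          rw [heq] at h3
          nlinarith
        rw [inner_add_right, inner_smul_right, mul_add, h2]
        nlinarith
      have h4 : |⟪g j, x + t • wv g τ⟫| = ⟪g j, x⟫ * ⟪g j, x + t • wv g τ⟫ := by
        have h5 : |⟪g j, x⟫ * ⟪g j, x + t • wv g τ⟫| = |⟪g j, x + t • wv g τ⟫| := by
          rw [abs_mul, heq, one_mul]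
        rw [← h5, abs_of_pos ht]
      rw [h4]
      exact h3
  obtain ⟨t, ht, ht0⟩ := (hev.and self_mem_nhdsWithin).exists
  exact ⟨t, ht0, sec_interior g ht⟩

/-- covering by the directions of a set of patterns, and the covering theorem for the other
extreme points -/
theorem cover_pat (hd : 1 ≤ d) (g : Fin N → E d) (hK : IsBody (Sec g)) (T : Finset (Fin N → Bool))
    (A : E d ≃L[ℝ] E d) (R : ℝ) (hR : 1 ≤ R)
    (hT : ∀ x ∈ Set.extremePoints ℝ (Sec g), pat (yv g x) ∈ T ∨ Seen A d R (Sec g) x) :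
    CoveredBy (T.card + bnd d d R) (Sec g) := by
  classical
  obtain ⟨U, hU, h⟩ := explicitU d d hd R hR (le_refl (0:ℝ))
  obtain ⟨T', hT', hcov⟩ := (h (Sec g) A hK (T.image fun τ => wv g τ) (fun x hx => by
    rcases hT x hx with h1 | h1
    · exact Or.inr ⟨_, Finset.mem_image_of_mem _ h1, wv_ill g hx⟩
    · exact Or.inl h1)).2
  refine ⟨T', hT'.trans ?_, hcov⟩
  have h1 : ((T.image fun τ => wv g τ).card : ℝ) ≤ T.card := by exact_mod_cast Finset.card_image_le
  have h2 := bndU_zero d d hd R hR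
  linarith

/-- covering by the directions of a set of patterns only -/
theorem cover_pat' (g : Fin N → E d) (hK : IsBody (Sec g)) (T : Finset (Fin N → Bool))
    (hT : ∀ x ∈ Set.extremePoints ℝ (Sec g), pat (yv g x) ∈ T) :
    CoveredBy T.card (Sec g) := by
  classical
  have hne : (Set.extremePoints ℝ (Sec g)).Nonempty :=
    hK.2.1.extremePoints_nonempty (hK.2.2.mono interior_subset)
  obtain ⟨x₀, hx₀⟩ := hne
  obtain ⟨T', hT', hcov⟩ := cover_of_illum hK.1 hK.2.1 (T.image fun τ => wv g τ)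
    ⟨_, Finset.mem_image_of_mem _ (hT x₀ hx₀)⟩ (fun x hx => by
      obtain ⟨v, hv, hdom⟩ := extreme_dom hK.1 hK.2.1 hK.2.2 hx
      exact ⟨_, Finset.mem_image_of_mem _ (hT v hv), hdom _ (wv_ill g hv)⟩)
  refine ⟨T', hT'.trans ?_, hcov⟩
  exact_mod_cast Finset.card_image_le

end Pool.Agent.J4H48.RS
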