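import Pool.Agent.J4H48.RQ.Back

/-!
# Products of independent variables, and rotations of the index space
-/

set_option autoImplicit false

open MeasureTheory ProbabilityTheory Filter Topology
open scoped RealInnerProductSpace ENNReal Matrix

namespace Pool.Agent.J4H48.RS

open Pool.Agent.PZ871 (E gm)
open Pool.Agent.TH84.HC
open Pool.Agent.J4H48.RP

/-- Tonelli's theorem for a product of functions of independent variables -/
theorem lint_prod {ι : Type*} [Fintype ι] {Ω : ι → Type*} [∀ i, MeasurableSpace (Ω i)]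
    (μ : ∀ i, Measure (Ω i)) [∀ i, IsProbabilityMeasure (μ i)] (f : ∀ i, Ω i → ℝ≥0∞)
    (hf : ∀ i, Measurable (f i)) :
    ∫⁻ x, ∏ i, f i (x i) ∂(Measure.pi μ) = ∏ i, ∫⁻ y, f i y ∂(μ i) := by
  have h1 : iIndepFun (fun (i : ι) (x : ∀ i, Ω i) => f i (x i)) (Measure.pi μ) :=
    iIndepFun_pi (μ := μ) (X := f) fun i => (hf i).aemeasurable
  have h2 := lintegral_prod_eq_prod_lintegral_of_indepFun Finset.univ _ h1
    (fun i => (hf i).comp (measurable_pi_apply i))
  rw [h2]
  refine Finset.prod_congr rfl fun i _ => ?_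
  exact (measurePreserving_eval μ i).lintegral_comp (hf i)

variable {d N : ℕ}

/-- the tuples of vectors as a Euclidean space -/
abbrev H (N d : ℕ) : Type := PiLp 2 (fun _ : Fin N => E d)

theorem pi_eq (N d : ℕ) :
    (Measure.pi (fun _ : Fin N => gm d)).map (WithLp.toLp 2) = stdGaussian (H N d) := by
  apply Measure.ext_of_charFun
  ext t
  rw [charFun_pi, charFun_stdGaussian]
  unfold gm
  simp_rw [charFun_stdGaussian]
  rw [← Complex.exp_sum]
  congr 1
  rw [← Finset.sum_div, Finset.sum_neg_distrib]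
  congr 2
  have := PiLp.norm_sq_eq_of_L2 (fun _ : Fin N => E d) t
  exact_mod_cast this.symm

/-- the `k`-th column -/
noncomputable def col (g : H N d) (k : Fin d) : E N := WithLp.toLp 2 fun j => g j k

/-- an isometry of the index space acts on the tuples -/
noncomputable def rotL (R : E N ≃ₗᵢ[ℝ] E N) : H N d →ₗ[ℝ] H N d where
  toFun g := WithLp.toLp 2 fun i => WithLp.toLp 2 fun k => (R (col g k)) i
  map_add' g h := by
    ext i k
    have : col (g + h) k = col g k + col h k := by
      ext j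
      rfl
    simp [this]
  map_smul' c g := by
    ext i k
    have : col (c • g) k = c • col g k := by
      ext j
      rfl
    simp [this]

theorem rotL_norm (R : E N ≃ₗᵢ[ℝ] E N) (g : H N d) : ‖rotL R g‖ = ‖g‖ := by
  have h0 : ∀ h : H N d, ‖h‖ ^ 2 = ∑ k, ‖col h k‖ ^ 2 := by
    intro h
    rw [PiLp.norm_sq_eq_of_L2]
    simp_rw [EuclideanSpace.real_norm_sq_eq]
    rw [Finset.sum_comm]
    rfl
  have h1 : ‖rotL R g‖ ^ 2 = ‖g‖ ^ 2 := by
    rw [h0, h0]
    refine Finset.sum_congr rfl fun k _ => ?_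
    have : col (rotL R g) k = R (col g k) := by
      ext j
      rfl
    rw [this, LinearIsometryEquiv.norm_map]
  exact (sq_eq_sq₀ (norm_nonneg _) (norm_nonneg _)).1 h1

noncomputable def rotI (R : E N ≃ₗᵢ[ℝ] E N) : H N d ≃ₗᵢ[ℝ] H N d :=
  LinearIsometry.toLinearIsometryEquiv ⟨rotL R, rotL_norm R⟩ rfl

theorem rotI_apply (R : E N ≃ₗᵢ[ℝ] E N) (g : H N d) : rotI R g = rotL R g := rfl

/-- the action on plain tuples -/
noncomputable def rot (R : E N ≃ₗᵢ[ℝ] E N) (g : Fin N → E d) : Fin N → E d :=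
  fun i => WithLp.toLp 2 fun k => (R (WithLp.toLp 2 fun j => g j k)) i

theorem rot_mp (R : E N ≃ₗᵢ[ℝ] E N) :
    MeasurePreserving (rot (d := d) R) (Measure.pi fun _ : Fin N => gm d)
      (Measure.pi fun _ : Fin N => gm d) := by
  have h1 : MeasurePreserving (MeasurableEquiv.toLp 2 (Fin N → E d))
      (Measure.pi fun _ : Fin N => gm d) (stdGaussian (H N d)) :=
    ⟨(MeasurableEquiv.toLp 2 (Fin N → E d)).measurable, by
      rw [MeasurableEquiv.coe_toLp]
      exact pi_eq N d⟩
  have h2 : MeasurePreserving (rotI R : H N d → H N d) (stdGaussian (H N d))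
      (stdGaussian (H N d)) := ⟨(rotI R).continuous.measurable, stdGaussian_map (rotI R)⟩
  have h3 := (h1.symm (MeasurableEquiv.toLp 2 (Fin N → E d))).comp (h2.comp h1)
  exact h3

/-- the vector of inner products -/
noncomputable def yv (g : Fin N → E d) (x : E d) : E N := WithLp.toLp 2 fun j => ⟪g j, x⟫

theorem yv_rot (R : E N ≃ₗᵢ[ℝ] E N) (g : Fin N → E d) (x : E d) :
    yv (rot R g) x = R (yv g x) := by
  have h1 : yv g x = ∑ k, x k • (WithLp.toLp 2 fun j => g j k : E N) := by
    ext j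
    simp [yv, PiLp.inner_apply]
  rw [h1, map_sum]
  ext i
  simp [yv, PiLp.inner_apply, rot]

theorem yv_norm (g : Fin N → E d) (x : E d) : ‖yv g x‖ ^ 2 = ∑ j, ⟪g j, x⟫ ^ 2 := by
  rw [EuclideanSpace.real_norm_sq_eq]
  rfl

end Pool.Agent.J4H48.RS
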