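import Pool.Agent.J4H48.RS.Inv

/-!
# The leverage scores of a Gaussian matrix
-/

set_option autoImplicit false

open MeasureTheory ProbabilityTheory Filter Topology
open scoped RealInnerProductSpace ENNReal Matrix

namespace Pool.Agent.J4H48.RS

open Pool.Agent.PZ871 (E gm)
open Pool.Agent.TH84.HC
open Pool.Agent.J4H48.RP

variable {d N : ℕ}

/-- the vector `v` has a large leverage in the range of `g` -/
def Ev (t : ℝ) (v : E N) : Set (Fin N → E d) :=
  {g | ∃ x, t * ‖v‖ ^ 2 * ‖yv g x‖ ^ 2 < ⟪v, yv g x⟫ ^ 2}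

theorem ev_rot (t : ℝ) (R : E N ≃ₗᵢ[ℝ] E N) (v : E N) :
    rot R ⁻¹' (Ev (d := d) t (R v)) = Ev t v := by
  ext g
  simp only [Ev, Set.mem_preimage, Set.mem_ofPred_eq, yv_rot, LinearIsometryEquiv.norm_map,
    LinearIsometryEquiv.inner_map_map]

theorem ev_smul (t c : ℝ) (hc : c ≠ 0) (v : E N) : Ev (d := d) t (c • v) = Ev t v := by
  ext g
  simp only [Ev, Set.mem_ofPred_eq, norm_smul, mul_pow, inner_smul_left, conj_trivial,
    Real.norm_eq_abs, sq_abs]
  refine exists_congr fun x => ?_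
  have h : 0 < c ^ 2 := by positivity
  constructor
  · intro hh
    have : c ^ 2 * (t * ‖v‖ ^ 2 * ‖yv g x‖ ^ 2) < c ^ 2 * ⟪v, yv g x⟫ ^ 2 := by linarith
    exact lt_of_mul_lt_mul_left this h.le
  · intro hh
    have := mul_lt_mul_of_pos_left hh h
    linarith

theorem yv_cont : Continuous (fun z : (Fin N → E d) × E d => yv z.1 z.2) := by
  unfold yv
  fun_prop

theorem ev_open (t : ℝ) : IsOpen {z : E N × (Fin N → E d) | z.2 ∈ Ev t z.1} := by
  have : {z : E N × (Fin N → E d) | z.2 ∈ Ev t z.1} =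
      ⋃ x : E d, {z | t * ‖z.1‖ ^ 2 * ‖yv z.2 x‖ ^ 2 < ⟪z.1, yv z.2 x⟫ ^ 2} := by
    ext z
    simp [Ev]
  rw [this]
  refine isOpen_iUnion fun x => isOpen_lt ?_ ?_
  · have : Continuous (fun z : E N × (Fin N → E d) => yv z.2 x) :=
      yv_cont.comp (continuous_snd.prodMk continuous_const)
    fun_prop
  · have : Continuous (fun z : E N × (Fin N → E d) => yv z.2 x) :=
      yv_cont.comp (continuous_snd.prodMk continuous_const)
    fun_prop

theorem ev_meas (t : ℝ) (v : E N) : MeasurableSet (Ev (d := d) t v) := by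
  have h := (ev_open (d := d) (N := N) t).preimage
    (by fun_prop : Continuous fun g : Fin N → E d => (v, g))
  exact h.measurableSet

/-- the probability does not depend on the vector -/
theorem ev_inv (t : ℝ) (v w : E N) (hv : v ≠ 0) (hw : w ≠ 0) :
    (Measure.pi fun _ : Fin N => gm d) (Ev t v) = (Measure.pi fun _ : Fin N => gm d) (Ev t w) := by
  have hv' : 0 < ‖v‖ := norm_pos_iff.2 hv
  have hw' : 0 < ‖w‖ := norm_pos_iff.2 hw
  set v' : E N := (‖w‖ / ‖v‖) • v with hv'd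
  have hn : ‖v'‖ = ‖w‖ := by
    rw [hv'd, norm_smul, Real.norm_of_nonneg (by positivity)]
    field_simp
  have h1 : Ev (d := d) t v = Ev t v' := by
    rw [hv'd, ev_smul t _ (by positivity)]
  have h2 := Submodule.reflection_sub hn
  rw [h1, ← ev_rot t (Submodule.reflection (ℝ ∙ (v' - w))ᗮ) v', h2]
  exact (rot_mp _).measure_preimage (ev_meas t w).nullMeasurableSet

/-- one variable -/
theorem lint_sq (x : ℝ) (hx : x < 1) :
    ∫⁻ z, ENNReal.ofReal (Real.exp (x * z ^ 2 / 2)) ∂g1 =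
      ENNReal.ofReal ((1 - x) ^ (-(1 / 2 : ℝ))) := by
  have hθ : ‖(EuclideanSpace.single (0 : Fin 1) (1:ℝ) : E 1)‖ = 1 := by simp
  rw [← map_inner _ hθ, lintegral_map (by fun_prop) (by fun_prop)]
  have h := expmomL 1 x hx
  rw [Nat.cast_one] at h
  rw [← h]
  refine lintegral_congr fun y => ?_
  congr 4
  rw [EuclideanSpace.real_norm_sq_eq, EuclideanSpace.inner_single_right]
  simp

/-- large deviations for the proportion of the first `m` coordinates -/
theorem prop_tail (I : Finset (Fin N)) (t s : ℝ) (hs0 : 0 ≤ s) (hs : s * (1 - t) < 1)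
    (ht : 0 ≤ t) :
    gm N {z | t * ‖z‖ ^ 2 < ∑ i ∈ I, z i ^ 2} ≤
      ENNReal.ofReal ((1 - s * (1 - t)) ^ (-(1 / 2 : ℝ))) ^ I.card *
      ENNReal.ofReal ((1 + s * t) ^ (-(1 / 2 : ℝ))) ^ (N - I.card) := by
  classical
  set e : Fin N → ℝ := fun i => if i ∈ I then s * (1 - t) else -(s * t) with he
  set f : E N → ℝ≥0∞ := fun z => ∏ i, ENNReal.ofReal (Real.exp (e i * z i ^ 2 / 2)) with hf
  have hfm : Measurable f := by
    rw [hf]
    fun_prop
  have h1 : {z : E N | t * ‖z‖ ^ 2 < ∑ i ∈ I, z i ^ 2} ⊆ {z | 1 ≤ f z} := by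
    intro z hz
    have hz' : t * ‖z‖ ^ 2 < ∑ i ∈ I, z i ^ 2 := hz
    show 1 ≤ ∏ i, ENNReal.ofReal (Real.exp (e i * z i ^ 2 / 2))
    rw [← ENNReal.ofReal_prod_of_nonneg fun i _ => (Real.exp_pos _).le, ← Real.exp_sum,
      ← ENNReal.ofReal_one]
    apply ENNReal.ofReal_le_ofReal
    apply Real.one_le_exp
    have h2 : ∑ i, e i * z i ^ 2 / 2 = s / 2 * (∑ i ∈ I, z i ^ 2 - t * ‖z‖ ^ 2) := by
      have h3 : ∑ i ∈ I, z i ^ 2 = ∑ i, if i ∈ I then z i ^ 2 else 0 := by
        rw [Finset.sum_ite_mem, Finset.univ_inter]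
      rw [EuclideanSpace.real_norm_sq_eq, h3, Finset.mul_sum, ← Finset.sum_sub_distrib,
        Finset.mul_sum]
      refine Finset.sum_congr rfl fun i _ => ?_
      rw [he]
      by_cases hi : i ∈ I
      · simp only [hi, if_true]
        ring
      · simp only [hi, if_false]
        ring
    rw [h2]
    exact mul_nonneg (by positivity) (by linarith)
  have h2 := meas_ge_le_lintegral_div (μ := gm N) hfm.aemeasurable one_ne_zero ENNReal.one_ne_top
  rw [div_one] at h2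
  refine (measure_mono h1).trans (h2.trans (le_of_eq ?_))
  rw [lint_pi N f hfm]
  have h3 : ∫⁻ z, f (WithLp.toLp 2 z) ∂(Pool.Agent.H902R3.ZA.gm N) =
      ∏ i, ∫⁻ y, ENNReal.ofReal (Real.exp (e i * y ^ 2 / 2)) ∂g1 := by
    unfold Pool.Agent.H902R3.ZA.gm
    exact lint_prod (fun _ : Fin N => g1) (fun i y => ENNReal.ofReal (Real.exp (e i * y ^ 2 / 2)))
      fun i => by fun_prop
  rw [h3]
  have h4 : ∀ i, ∫⁻ y, ENNReal.ofReal (Real.exp (e i * y ^ 2 / 2)) ∂g1 =
      if i ∈ I then ENNReal.ofReal ((1 - s * (1 - t)) ^ (-(1 / 2 : ℝ)))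
      else ENNReal.ofReal ((1 + s * t) ^ (-(1 / 2 : ℝ))) := by
    intro i
    by_cases hi : i ∈ I
    · rw [if_pos hi, ← lint_sq _ hs]
      simp [he, hi]
    · rw [if_neg hi]
      have h5 := lint_sq (-(s * t)) (by nlinarith)
      rw [sub_neg_eq_add] at h5
      rw [← h5]
      simp [he, hi]
  simp_rw [h4]
  rw [Finset.prod_ite, Finset.prod_const, Finset.prod_const]
  congr 2
  · congr 1
    ext i
    simp
  · have : (Finset.univ.filter fun i => i ∉ I) = Iᶜ := by
      ext i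
      simp
    rw [this, Finset.card_compl, Fintype.card_fin]

/-- vectors with a large leverage in a subspace -/
theorem sub_tail {d : ℕ} (hdN : d ≤ N) (W : Submodule ℝ (E N)) (hW : Module.finrank ℝ W ≤ d)
    (t s : ℝ) (hs0 : 0 ≤ s) (hs : s * (1 - t) < 1) (ht : 0 ≤ t) :
    gm N {v | ∃ w ∈ W, t * ‖v‖ ^ 2 * ‖w‖ ^ 2 < ⟪v, w⟫ ^ 2} ≤
      ENNReal.ofReal ((1 - s * (1 - t)) ^ (-(1 / 2 : ℝ))) ^ d *
      ENNReal.ofReal ((1 + s * t) ^ (-(1 / 2 : ℝ))) ^ (N - d) := by
  classical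
  set m := Module.finrank ℝ W with hm
  set u := stdOrthonormalBasis ℝ W with hu
  set v₀ : Fin N → E N := fun i => if h : (i : ℕ) < m then (u ⟨i, h⟩ : E N) else 0 with hv₀
  set S : Set (Fin N) := {i | (i : ℕ) < m} with hS
  have hort : Orthonormal ℝ (S.domRestrict v₀) := by
    have e : S.domRestrict v₀ = fun i : S => ((u ⟨i.1, i.2⟩ : W) : E N) := by
      funext i
      have : ((i : Fin N) : ℕ) < m := i.2
      simp [hv₀, Set.domRestrict, this]
    rw [e]
    have h1 : Orthonormal ℝ (fun j : Fin m => ((u j : W) : E N)) := by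
      have := u.orthonormal.comp_linearIsometry W.subtypeₗᵢ
      exact this
    refine h1.comp (fun i : S => (⟨i.1, i.2⟩ : Fin m)) ?_
    intro i j hij
    have := congrArg Fin.val hij
    exact Subtype.ext (Fin.ext this)
  obtain ⟨b, hb⟩ := hort.exists_orthonormalBasis_extension_of_card_eq
    (by rw [finrank_euclideanSpace_fin, Fintype.card_fin])
  set I : Finset (Fin N) := Finset.univ.filter fun i => (i : ℕ) < d with hI
  have hIc : I.card = d := by
    rw [hI]
    have := Fin.card_filter_val_lt (n := N) (m := d)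
    rw [this, min_eq_right hdN]
  have hrepr : ∀ w ∈ W, ∀ i ∉ I, b.repr w i = 0 := by
    intro w hw i hi
    have hi' : ¬ (i : ℕ) < d := by simpa [hI] using hi
    rw [OrthonormalBasis.repr_apply_apply]
    have h1 : w = ∑ j, ⟪u j, (⟨w, hw⟩ : W)⟫ • ((u j : W) : E N) := by
      have := u.sum_repr' (⟨w, hw⟩ : W)
      have h2 := congrArg (fun z : W => (z : E N)) this
      simp only [Submodule.coe_sum, Submodule.coe_smul] at h2
      exact h2.symm
    rw [h1, inner_sum]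
    refine Finset.sum_eq_zero fun j _ => ?_
    rw [inner_smul_right]
    have hjN : (j : ℕ) < N := by have := j.2; omega
    have h3 : ((u j : W) : E N) = b ⟨j, hjN⟩ := by
      rw [hb ⟨j, hjN⟩ (show ((⟨j, hjN⟩ : Fin N) : ℕ) < m from j.2)]
      have hjm : (j : ℕ) < m := j.2
      simp [hv₀, hjm]
    rw [h3, b.inner_eq_ite, if_neg, mul_zero]
    intro h
    have h4 := congrArg Fin.val h
    have h5 : (i : ℕ) = j := h4
    have := j.2
    omega
  have hsub : {v : E N | ∃ w ∈ W, t * ‖v‖ ^ 2 * ‖w‖ ^ 2 < ⟪v, w⟫ ^ 2} ⊆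
      b.repr ⁻¹' {z | t * ‖z‖ ^ 2 < ∑ i ∈ I, z i ^ 2} := by
    rintro v ⟨w, hw, hlt⟩
    show t * ‖b.repr v‖ ^ 2 < ∑ i ∈ I, (b.repr v) i ^ 2
    rw [LinearIsometryEquiv.norm_map]
    have h1 : ⟪v, w⟫ = ∑ i ∈ I, (b.repr w) i * (b.repr v) i := by
      rw [← b.repr.inner_map_map, PiLp.inner_apply]
      rw [← Finset.sum_subset (Finset.subset_univ I) ?_]
      · refine Finset.sum_congr rfl fun i _ => ?_
        simp
      · intro i _ hi
        rw [hrepr w hw i hi]
        simp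
    have h2 : ⟪v, w⟫ ^ 2 ≤ (∑ i ∈ I, (b.repr w) i ^ 2) * ∑ i ∈ I, (b.repr v) i ^ 2 := by
      rw [h1]
      exact Finset.sum_mul_sq_le_sq_mul_sq _ _ _
    have h3 : ∑ i ∈ I, (b.repr w) i ^ 2 ≤ ‖w‖ ^ 2 := by
      rw [← b.repr.norm_map w, EuclideanSpace.real_norm_sq_eq]
      exact Finset.sum_le_sum_of_subset_of_nonneg (Finset.subset_univ I) fun i _ _ => sq_nonneg _
    have h4 : 0 ≤ ∑ i ∈ I, (b.repr v) i ^ 2 := Finset.sum_nonneg fun i _ => sq_nonneg _
    have h5 : t * ‖v‖ ^ 2 * ‖w‖ ^ 2 < (∑ i ∈ I, (b.repr v) i ^ 2) * ‖w‖ ^ 2 := by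
      have := mul_le_mul_of_nonneg_right h3 h4
      linarith
    exact lt_of_mul_lt_mul_right h5 (sq_nonneg _)
  have hmp : MeasurePreserving (b.repr : E N → E N) (gm N) (gm N) := by
    refine ⟨b.repr.continuous.measurable, ?_⟩
    unfold gm
    exact stdGaussian_map b.repr
  have hmeas : MeasurableSet {z : E N | t * ‖z‖ ^ 2 < ∑ i ∈ I, z i ^ 2} :=
    measurableSet_lt (by fun_prop) (by fun_prop)
  refine (measure_mono hsub).trans ?_
  rw [hmp.measure_preimage hmeas.nullMeasurableSet]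
  have := prop_tail I t s hs0 hs ht
  rwa [hIc] at this

/-- the vector of inner products as a linear map -/
noncomputable def yL (g : Fin N → E d) : E d →ₗ[ℝ] E N where
  toFun := yv g
  map_add' x y := by
    ext j
    simp [yv, inner_add_right]
  map_smul' c x := by
    ext j
    simp [yv, inner_smul_right]

theorem ev_le (hN : 1 ≤ N) (t : ℝ) (κ : ℝ≥0∞)
    (hκ : ∀ W : Submodule ℝ (E N), Module.finrank ℝ W ≤ d →
      gm N {v | ∃ w ∈ W, t * ‖v‖ ^ 2 * ‖w‖ ^ 2 < ⟪v, w⟫ ^ 2} ≤ κ) (w : E N) (hw : w ≠ 0) :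
    (Measure.pi fun _ : Fin N => gm d) (Ev t w) ≤ κ := by
  set P := (Measure.pi fun _ : Fin N => gm d) with hP
  set S : Set (E N × (Fin N → E d)) := {z | z.2 ∈ Ev t z.1} with hS
  have hSm : MeasurableSet S := (ev_open t).measurableSet
  have h1 : ((gm N).prod P) S = P (Ev t w) := by
    rw [Measure.prod_apply hSm]
    have h2 : ∀ᵐ v ∂(gm N), P (Prod.mk v ⁻¹' S) = P (Ev t w) := by
      have h3 : ∀ᵐ v ∂(gm N), v ≠ 0 := by
        rw [ae_iff]
        simpa using gm_zero hN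
      filter_upwards [h3] with v hv
      exact ev_inv t v w hv hw
    rw [lintegral_congr_ae h2, lintegral_const, measure_univ, mul_one]
  rw [← h1, Measure.prod_apply_symm hSm]
  calc ∫⁻ g, gm N ((fun v => (v, g)) ⁻¹' S) ∂P ≤ ∫⁻ _, κ ∂P := by
        refine lintegral_mono fun g => ?_
        have hfr : Module.finrank ℝ (LinearMap.range (yL g)) ≤ d := by
          refine (LinearMap.finrank_range_le _).trans ?_
          rw [finrank_euclideanSpace_fin]
        refine (measure_mono ?_).trans (hκ _ hfr)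
        rintro v ⟨x, hx⟩
        exact ⟨yv g x, ⟨x, rfl⟩, hx⟩
    _ = κ := by rw [lintegral_const, measure_univ, mul_one]

/-- all the leverage scores are at most `t` -/
def Lev (t : ℝ) (g : Fin N → E d) : Prop :=
  ∀ i, ∀ x, ⟪g i, x⟫ ^ 2 ≤ t * ∑ j, ⟪g j, x⟫ ^ 2

theorem lev_prob (hdN : d ≤ N) (hN : 1 ≤ N)
    (t s : ℝ) (hs0 : 0 ≤ s) (hs : s * (1 - t) < 1) (ht : 0 ≤ t) :
    (Measure.pi fun _ : Fin N => gm d) {g | ¬ Lev t g} ≤
      N * (ENNReal.ofReal ((1 - s * (1 - t)) ^ (-(1 / 2 : ℝ))) ^ d *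
      ENNReal.ofReal ((1 + s * t) ^ (-(1 / 2 : ℝ))) ^ (N - d)) := by
  have h1 : {g : Fin N → E d | ¬ Lev t g} ⊆ ⋃ i : Fin N, Ev t (EuclideanSpace.single i (1:ℝ)) := by
    intro g hg
    have hg' : ¬ Lev t g := hg
    unfold Lev at hg'
    push Not at hg'
    obtain ⟨i, x, hx⟩ := hg'
    refine Set.mem_iUnion.2 ⟨i, x, ?_⟩
    rw [yv_norm, EuclideanSpace.inner_single_left]
    simpa [yv] using hx
  refine (measure_mono h1).trans ((measure_iUnion_fintype_le _ _).trans ?_)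
  refine (Finset.sum_le_sum fun i _ => ev_le hN t _ (fun W hW => sub_tail hdN W hW t s hs0 hs ht)
    (EuclideanSpace.single i (1:ℝ)) ?_).trans (le_of_eq ?_)
  · intro h
    have := congrArg (fun v : E N => v i) h
    simp at this
  · rw [Finset.sum_const, Finset.card_univ, Fintype.card_fin, nsmul_eq_mul]

end Pool.Agent.J4H48.RS
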