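import Pool.Agent.J4H48.RS.Lev

/-!
# Lower bound for the leverage scores of a Gaussian matrix
-/

set_option autoImplicit false

open MeasureTheory ProbabilityTheory Filter Topology
open scoped RealInnerProductSpace ENNReal Matrix

namespace Pool.Agent.J4H48.RS

open Pool.Agent.PZ871 (E gm)
open Pool.Agent.TH84.HC
open Pool.Agent.J4H48.RP

variable {d N : ℕ}

/-- the proportion of the first coordinates is not small -/
theorem prop_low (I : Finset (Fin N)) (ℓ s : ℝ) (hs0 : 0 ≤ s) (hs : s * ℓ < 1) (hℓ : ℓ ≤ 1) :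
    gm N {z | ∑ i ∈ I, z i ^ 2 ≤ ℓ * ‖z‖ ^ 2} ≤
      ENNReal.ofReal ((1 + s * (1 - ℓ)) ^ (-(1 / 2 : ℝ))) ^ I.card *
      ENNReal.ofReal ((1 - s * ℓ) ^ (-(1 / 2 : ℝ))) ^ (N - I.card) := by
  classical
  set e : Fin N → ℝ := fun i => if i ∈ I then -(s * (1 - ℓ)) else s * ℓ with he
  set f : E N → ℝ≥0∞ := fun z => ∏ i, ENNReal.ofReal (Real.exp (e i * z i ^ 2 / 2)) with hf
  have hfm : Measurable f := by
    rw [hf]
    fun_prop
  have h1 : {z : E N | ∑ i ∈ I, z i ^ 2 ≤ ℓ * ‖z‖ ^ 2} ⊆ {z | 1 ≤ f z} := by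
    intro z hz
    have hz' : ∑ i ∈ I, z i ^ 2 ≤ ℓ * ‖z‖ ^ 2 := hz
    show 1 ≤ ∏ i, ENNReal.ofReal (Real.exp (e i * z i ^ 2 / 2))
    rw [← ENNReal.ofReal_prod_of_nonneg fun i _ => (Real.exp_pos _).le, ← Real.exp_sum,
      ← ENNReal.ofReal_one]
    apply ENNReal.ofReal_le_ofReal
    apply Real.one_le_exp
    have h2 : ∑ i, e i * z i ^ 2 / 2 = s / 2 * (ℓ * ‖z‖ ^ 2 - ∑ i ∈ I, z i ^ 2) := by
      have h3 : ∑ i ∈ I, z i ^ 2 = ∑ i, if i ∈ I then z i ^ 2 else 0 := by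
        rw [Finset.sum_ite_mem, Finset.univ_inter]
      rw [EuclideanSpace.real_norm_sq_eq, h3, Finset.mul_sum, ← Finset.sum_sub_distrib,
        Finset.mul_sum]
      refine Finset.sum_congr rfl fun i _ => ?_
      rw [he]
      by_cases hi : i ∈ I
      · simp only [hi, if_true]
        ring
      · simp only [hi, if_false]
        ring
    rw [h2]
    exact mul_nonneg (by positivity) (by linarith)
  have h2 := meas_ge_le_lintegral_div (μ := gm N) hfm.aemeasurable one_ne_zero ENNReal.one_ne_top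
  rw [div_one] at h2
  refine (measure_mono h1).trans (h2.trans (le_of_eq ?_))
  rw [lint_pi N f hfm]
  have h3 : ∫⁻ z, f (WithLp.toLp 2 z) ∂(Pool.Agent.H902R3.ZA.gm N) =
      ∏ i, ∫⁻ y, ENNReal.ofReal (Real.exp (e i * y ^ 2 / 2)) ∂g1 := by
    unfold Pool.Agent.H902R3.ZA.gm
    exact lint_prod (fun _ : Fin N => g1) (fun i y => ENNReal.ofReal (Real.exp (e i * y ^ 2 / 2)))
      fun i => by fun_prop
  rw [h3]
  have h4 : ∀ i, ∫⁻ y, ENNReal.ofReal (Real.exp (e i * y ^ 2 / 2)) ∂g1 =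
      if i ∈ I then ENNReal.ofReal ((1 + s * (1 - ℓ)) ^ (-(1 / 2 : ℝ)))
      else ENNReal.ofReal ((1 - s * ℓ) ^ (-(1 / 2 : ℝ))) := by
    intro i
    by_cases hi : i ∈ I
    · have h6 : 0 ≤ s * (1 - ℓ) := mul_nonneg hs0 (by linarith)
      rw [if_pos hi]
      have h5 := lint_sq (-(s * (1 - ℓ))) (by linarith)
      rw [sub_neg_eq_add] at h5
      rw [← h5]
      simp only [he, hi, if_true]
    · rw [if_neg hi, ← lint_sq _ hs]
      simp only [he, hi, if_false]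
  simp_rw [h4]
  rw [Finset.prod_ite, Finset.prod_const, Finset.prod_const]
  congr 2
  · congr 1
    ext i
    simp
  · have : (Finset.univ.filter fun i => i ∉ I) = Iᶜ := by
      ext i
      simp
    rw [this, Finset.card_compl, Fintype.card_fin]

/-- vectors with a small leverage in a subspace -/
theorem sub_low {d : ℕ} (W : Submodule ℝ (E N)) (hW : Module.finrank ℝ W = d)
    (ℓ s : ℝ) (hs0 : 0 ≤ s) (hs : s * ℓ < 1) (hℓ : ℓ ≤ 1) (hℓ0 : 0 ≤ ℓ) :
    gm N {v | ∀ w ∈ W, ⟪v, w⟫ ^ 2 ≤ ℓ * ‖v‖ ^ 2 * ‖w‖ ^ 2} ≤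
      ENNReal.ofReal ((1 + s * (1 - ℓ)) ^ (-(1 / 2 : ℝ))) ^ d *
      ENNReal.ofReal ((1 - s * ℓ) ^ (-(1 / 2 : ℝ))) ^ (N - d) := by
  classical
  have hdN : d ≤ N := by
    rw [← hW]
    have := Submodule.finrank_le W
    rwa [finrank_euclideanSpace_fin] at this
  set u₀ := stdOrthonormalBasis ℝ W with hu₀
  set u : OrthonormalBasis (Fin d) ℝ W := u₀.reindex (finCongr hW) with hu
  set v₀ : Fin N → E N := fun i => if h : (i : ℕ) < d then (u ⟨i, h⟩ : E N) else 0 with hv₀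
  set S : Set (Fin N) := {i | (i : ℕ) < d} with hS
  have hort : Orthonormal ℝ (S.domRestrict v₀) := by
    have e : S.domRestrict v₀ = fun i : S => ((u ⟨i.1, i.2⟩ : W) : E N) := by
      funext i
      have : ((i : Fin N) : ℕ) < d := i.2
      simp [hv₀, Set.domRestrict, this]
    rw [e]
    have h1 : Orthonormal ℝ (fun j : Fin d => ((u j : W) : E N)) := by
      have := u.orthonormal.comp_linearIsometry W.subtypeₗᵢ
      exact this
    refine h1.comp (fun i : S => (⟨i.1, i.2⟩ : Fin d)) ?_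
    intro i j hij
    have := congrArg Fin.val hij
    exact Subtype.ext (Fin.ext this)
  obtain ⟨b, hb⟩ := hort.exists_orthonormalBasis_extension_of_card_eq
    (by rw [finrank_euclideanSpace_fin, Fintype.card_fin])
  set I : Finset (Fin N) := Finset.univ.filter fun i => (i : ℕ) < d with hI
  have hIc : I.card = d := by
    rw [hI]
    have := Fin.card_filter_val_lt (n := N) (m := d)
    rw [this, min_eq_right hdN]
  have hbW : ∀ i ∈ I, b i ∈ W := by
    intro i hi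
    have hi' : (i : ℕ) < d := by simpa [hI] using hi
    rw [hb i hi']
    simp only [hv₀, hi', dif_pos]
    exact (u ⟨i, hi'⟩).2
  have hsub : {v : E N | ∀ w ∈ W, ⟪v, w⟫ ^ 2 ≤ ℓ * ‖v‖ ^ 2 * ‖w‖ ^ 2} ⊆
      b.repr ⁻¹' {z | ∑ i ∈ I, z i ^ 2 ≤ ℓ * ‖z‖ ^ 2} := by
    intro v hv
    show ∑ i ∈ I, (b.repr v) i ^ 2 ≤ ℓ * ‖b.repr v‖ ^ 2
    rw [LinearIsometryEquiv.norm_map]
    set w : E N := ∑ i ∈ I, (b.repr v) i • b i with hw
    have hwW : w ∈ W := Submodule.sum_mem _ fun i hi => Submodule.smul_mem _ _ (hbW i hi)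
    have h1 : ⟪v, w⟫ = ∑ i ∈ I, (b.repr v) i ^ 2 := by
      rw [hw, inner_sum]
      refine Finset.sum_congr rfl fun i _ => ?_
      rw [inner_smul_right, b.repr_apply_apply, real_inner_comm (b i) v]
      ring
    have h2 : ‖w‖ ^ 2 = ∑ i ∈ I, (b.repr v) i ^ 2 := by
      rw [← real_inner_self_eq_norm_sq, hw, b.orthonormal.inner_sum]
      refine Finset.sum_congr rfl fun i _ => ?_
      simp only [conj_trivial]
      ring
    have h3 := hv w hwW
    rw [h1, h2] at h3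
    set A := ∑ i ∈ I, (b.repr v) i ^ 2 with hA
    have hA0 : 0 ≤ A := Finset.sum_nonneg fun i _ => sq_nonneg _
    rcases hA0.eq_or_lt with h0 | h0
    · rw [← h0]
      positivity
    · nlinarith
  have hmp : MeasurePreserving (b.repr : E N → E N) (gm N) (gm N) := by
    refine ⟨b.repr.continuous.measurable, ?_⟩
    unfold gm
    exact stdGaussian_map b.repr
  have hmeas : MeasurableSet {z : E N | ∑ i ∈ I, z i ^ 2 ≤ ℓ * ‖z‖ ^ 2} :=
    measurableSet_le (by fun_prop) (by fun_prop)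
  refine (measure_mono hsub).trans ?_
  rw [hmp.measure_preimage hmeas.nullMeasurableSet]
  have := prop_low I ℓ s hs0 hs hℓ
  rwa [hIc] at this

/-- injectivity in general position -/
theorem inj_of_gp (hdN : d ≤ N) (g : Fin N → E d)
    (hgp : ∀ (s : Finset (Fin N)) (hs : s.card = d),
      LinearIndependent ℝ (fun i => g (s.orderEmbOfFin hs i))) : Function.Injective (yL g) := by
  have hrec : ¬ Rec ({1, -1} : Finset ℝ) g :=
    Pool.Agent.J4H48.RQ.not_rec hdN (by simp) (by simp) hgp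
  rw [← LinearMap.ker_eq_bot, LinearMap.ker_eq_bot']
  intro x hx
  by_contra hx0
  apply hrec
  refine ⟨x, hx0, fun i σ hσ => ?_⟩
  have h1 : ⟪g i, x⟫ = 0 := by
    have := congrArg (fun v : E N => v i) hx
    exact this
  rw [h1, mul_zero]

theorem gp_ae' (d N : ℕ) : ∀ᵐ g ∂(Measure.pi fun _ : Fin N => gm d),
    ∀ (s : Finset (Fin N)) (hs : s.card = d),
      LinearIndependent ℝ (fun i => g (s.orderEmbOfFin hs i)) := by
  filter_upwards [gp_ae d N] with g hg s hs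
  have h3 := (hg s hs.le).comp (fun i => s.orderIsoOfFin hs i) (s.orderIsoOfFin hs).injective
  exact h3

theorem ev_ge (hdN : d ≤ N) (hN : 1 ≤ N) (ℓ : ℝ) (κ : ℝ≥0∞)
    (hκ : ∀ W : Submodule ℝ (E N), Module.finrank ℝ W = d →
      gm N {v | ∀ w ∈ W, ⟪v, w⟫ ^ 2 ≤ ℓ * ‖v‖ ^ 2 * ‖w‖ ^ 2} ≤ κ) (w : E N) (hw : w ≠ 0) :
    (Measure.pi fun _ : Fin N => gm d) (Ev ℓ w)ᶜ ≤ κ := by
  set P := (Measure.pi fun _ : Fin N => gm d) with hP
  set S : Set (E N × (Fin N → E d)) := {z | z.2 ∈ Ev ℓ z.1}ᶜ with hS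
  have hSm : MeasurableSet S := (ev_open ℓ).measurableSet.compl
  have h1 : ((gm N).prod P) S = P (Ev ℓ w)ᶜ := by
    rw [Measure.prod_apply hSm]
    have h2 : ∀ᵐ v ∂(gm N), P (Prod.mk v ⁻¹' S) = P (Ev ℓ w)ᶜ := by
      have h3 : ∀ᵐ v ∂(gm N), v ≠ 0 := by
        rw [ae_iff]
        simpa using gm_zero hN
      filter_upwards [h3] with v hv
      have h4 : Prod.mk v ⁻¹' S = (Ev (d := d) ℓ v)ᶜ := rfl
      rw [h4, measure_compl (ev_meas ℓ v) (measure_ne_top _ _),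
        measure_compl (ev_meas ℓ w) (measure_ne_top _ _), ev_inv ℓ v w hv hw]
    rw [lintegral_congr_ae h2, lintegral_const, measure_univ, mul_one]
  rw [← h1, Measure.prod_apply_symm hSm]
  calc ∫⁻ g, gm N ((fun v => (v, g)) ⁻¹' S) ∂P ≤ ∫⁻ _, κ ∂P := by
        refine lintegral_mono_ae ?_
        filter_upwards [gp_ae' d N] with g hg
        have hinj := inj_of_gp hdN g hg
        have hfr : Module.finrank ℝ (LinearMap.range (yL g)) = d := by
          rw [LinearMap.finrank_range_of_inj hinj, finrank_euclideanSpace_fin]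
        refine (measure_mono ?_).trans (hκ _ hfr)
        rintro v hv _ ⟨x, rfl⟩
        by_contra hlt
        push Not at hlt
        exact hv ⟨x, hlt⟩
    _ = κ := by rw [lintegral_const, measure_univ, mul_one]

/-- all the leverage scores are larger than `ℓ` -/
def LowLev (ℓ : ℝ) (g : Fin N → E d) : Prop :=
  ∀ i, ∃ x, ℓ * ∑ j, ⟪g j, x⟫ ^ 2 < ⟪g i, x⟫ ^ 2

theorem low_prob (hdN : d ≤ N) (hN : 1 ≤ N)
    (ℓ s : ℝ) (hs0 : 0 ≤ s) (hs : s * ℓ < 1) (hℓ : ℓ ≤ 1) (hℓ0 : 0 ≤ ℓ) :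
    (Measure.pi fun _ : Fin N => gm d) {g | ¬ LowLev ℓ g} ≤
      N * (ENNReal.ofReal ((1 + s * (1 - ℓ)) ^ (-(1 / 2 : ℝ))) ^ d *
      ENNReal.ofReal ((1 - s * ℓ) ^ (-(1 / 2 : ℝ))) ^ (N - d)) := by
  have h1 : {g : Fin N → E d | ¬ LowLev ℓ g} ⊆
      ⋃ i : Fin N, (Ev ℓ (EuclideanSpace.single i (1:ℝ)))ᶜ := by
    intro g hg
    have hg' : ¬ LowLev ℓ g := hg
    unfold LowLev at hg'
    push Not at hg'
    obtain ⟨i, hi⟩ := hg'
    refine Set.mem_iUnion.2 ⟨i, ?_⟩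
    rintro ⟨x, hx⟩
    have h2 := hi x
    rw [yv_norm, EuclideanSpace.inner_single_left] at hx
    have h3 : ℓ * ∑ j, ⟪g j, x⟫ ^ 2 < ⟪g i, x⟫ ^ 2 := by simpa [yv] using hx
    linarith
  refine (measure_mono h1).trans ((measure_iUnion_fintype_le _ _).trans ?_)
  refine (Finset.sum_le_sum fun i _ => ev_ge hdN hN ℓ _
    (fun W hW => sub_low W hW ℓ s hs0 hs hℓ hℓ0)
    (EuclideanSpace.single i (1:ℝ)) ?_).trans (le_of_eq ?_)
  · intro h
    have := congrArg (fun v : E N => v i) h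
    simp at this
  · rw [Finset.sum_const, Finset.card_univ, Fintype.card_fin, nsmul_eq_mul]

end Pool.Agent.J4H48.RS
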