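import Pool.Agent.J4H48.RS.Ill

/-!
# The ellipsoid weighted by the leverage scores
-/

set_option autoImplicit false

open MeasureTheory ProbabilityTheory Filter Topology
open scoped RealInnerProductSpace ENNReal Matrix

namespace Pool.Agent.J4H48.RS

open Pool.Agent.PZ871 (E gm)
open Pool.Agent.TH84.HC
open Pool.Agent.J4H48.RP
open Pool.Agent.J4H48.RQ (act_le poly_corner_d not_rec)

variable {d N : ℕ}

/-- the projections of the coordinate vectors to a subspace -/
theorem projs (F : Submodule ℝ (E N)) (hF : Module.finrank ℝ F = d) :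
    ∃ p : Fin N → E N, (∀ i, p i ∈ F) ∧ (∀ i, ∀ y ∈ F, ⟪p i, y⟫ = y i) ∧
      ∑ i, ‖p i‖ ^ 2 = d := by
  set u : OrthonormalBasis (Fin d) ℝ F := (stdOrthonormalBasis ℝ F).reindex (finCongr hF) with hu
  set v : Fin d → E N := fun a => ((u a : F) : E N) with hv
  have hort : Orthonormal ℝ v := u.orthonormal.comp_linearIsometry F.subtypeₗᵢ
  have hexp : ∀ y ∈ F, y = ∑ a, ⟪v a, y⟫ • v a := by
    intro y hy
    have := u.sum_repr' (⟨y, hy⟩ : F)
    have h2 := congrArg (fun z : F => (z : E N)) this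
    simp only [Submodule.coe_sum, Submodule.coe_smul] at h2
    exact h2.symm
  refine ⟨fun i => ∑ a, (v a) i • v a, fun i => ?_, fun i y hy => ?_, ?_⟩
  · exact Submodule.sum_mem _ fun a _ => Submodule.smul_mem _ _ (u a).2
  · rw [sum_inner]
    have h1 := congrArg (fun z : E N => z i) (hexp y hy)
    simp only [WithLp.ofLp_sum, Finset.sum_apply, WithLp.ofLp_smul, Pi.smul_apply, smul_eq_mul] at h1
    rw [h1]
    refine Finset.sum_congr rfl fun a _ => ?_
    rw [inner_smul_left, conj_trivial, mul_comm]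
  · have h1 : ∀ i, ‖∑ a, (v a) i • v a‖ ^ 2 = ∑ a, (v a) i ^ 2 := by
      intro i
      rw [← real_inner_self_eq_norm_sq, hort.inner_sum]
      refine Finset.sum_congr rfl fun a _ => ?_
      simp only [conj_trivial]
      ring
    simp_rw [h1]
    rw [Finset.sum_comm]
    have h2 : ∀ a, ∑ i, (v a) i ^ 2 = 1 := by
      intro a
      rw [← EuclideanSpace.real_norm_sq_eq, hort.1 a, one_pow]
    simp [h2]

/-- properties of the projections -/
structure PP (F : Submodule ℝ (E N)) (p : Fin N → E N) : Prop where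
  mem : ∀ i, p i ∈ F
  rep : ∀ i, ∀ y ∈ F, ⟪p i, y⟫ = y i

theorem PP.self {F : Submodule ℝ (E N)} {p : Fin N → E N} (h : PP F p) (i : Fin N) :
    (p i) i = ‖p i‖ ^ 2 := by
  rw [← h.rep i (p i) (h.mem i), real_inner_self_eq_norm_sq]

theorem PP.le_one {F : Submodule ℝ (E N)} {p : Fin N → E N} (h : PP F p) (i : Fin N) :
    ‖p i‖ ^ 2 ≤ 1 := by
  have h1 : |(p i) i| ≤ ‖p i‖ := by
    rw [← Real.norm_eq_abs]
    exact PiLp.norm_apply_le (p i) i
  rw [h.self, abs_of_nonneg (sq_nonneg _)] at h1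
  have h2 := norm_nonneg (p i)
  nlinarith

/-- the weighted ellipsoid is in the cube -/
theorem PP.ell_le {F : Submodule ℝ (E N)} {p : Fin N → E N} (h : PP F p) {m : ℝ} (hm : 0 < m)
    (hpm : ∀ i, m ≤ ‖p i‖ ^ 2) (i : Fin N) {y : E N} (hy : y ∈ F) :
    y i ^ 2 ≤ (1 + m) ^ 2 / (4 * m) * ∑ j, ‖p j‖ ^ 2 * y j ^ 2 := by
  have hpos : ∀ j, 0 < ‖p j‖ ^ 2 := fun j => lt_of_lt_of_le hm (hpm j)
  have h1 : y i = ∑ j, (p i) j * y j := by
    rw [← h.rep i y hy, PiLp.inner_apply]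
    exact Finset.sum_congr rfl fun j _ => by simp [mul_comm]
  have h2 : y i ^ 2 ≤ (∑ j, (p i) j ^ 2 / ‖p j‖ ^ 2) * ∑ j, ‖p j‖ ^ 2 * y j ^ 2 := by
    rw [h1]
    refine Finset.sum_sq_le_sum_mul_sum_of_sq_le_mul _ (fun j _ => ?_) (fun j _ => ?_) fun j _ => ?_
    · exact div_nonneg (sq_nonneg _) (sq_nonneg _)
    · positivity
    · have := (hpos j).ne'
      rw [mul_pow, ← mul_assoc, div_mul_cancel₀ _ this]
  refine h2.trans (mul_le_mul_of_nonneg_right ?_ (Finset.sum_nonneg fun j _ => by positivity))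
  set L := ‖p i‖ ^ 2 with hL
  have hL1 : L ≤ 1 := h.le_one i
  have hL0 : 0 < L := hpos i
  have h3 : ∑ j, (p i) j ^ 2 / ‖p j‖ ^ 2 ≤ L + (L - L ^ 2) / m := by
    rw [← Finset.add_sum_erase _ _ (Finset.mem_univ i)]
    have h4 : (p i) i ^ 2 / ‖p i‖ ^ 2 = L := by
      rw [h.self, ← hL]
      field_simp
    have h5 : ∑ j ∈ Finset.univ.erase i, (p i) j ^ 2 = L - L ^ 2 := by
      have h6 := Finset.add_sum_erase Finset.univ (fun j => (p i) j ^ 2) (Finset.mem_univ i)
      rw [← EuclideanSpace.real_norm_sq_eq] at h6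
      simp only [h.self] at h6
      linarith
    rw [h4, ← h5, Finset.sum_div]
    gcongr with j _
    exact hpm j
  refine h3.trans ?_
  rw [le_div_iff₀ (by positivity)]
  have h6 : (L + (L - L ^ 2) / m) * (4 * m) = 4 * (L * m + (L - L ^ 2)) := by
    field_simp
  rw [h6]
  nlinarith [sq_nonneg (1 + m - 2 * L)]

/-- lower bound of the leverage scores -/
theorem PP.of_low {g : Fin N → E d} {p : Fin N → E N} (h : PP (LinearMap.range (yL g)) p) {ℓ : ℝ}
    (hl : LowLev ℓ g) (i : Fin N) : ℓ < ‖p i‖ ^ 2 := by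
  obtain ⟨x, hx⟩ := hl i
  have h1 : ⟪p i, yv g x⟫ = ⟪g i, x⟫ := h.rep i (yv g x) ⟨x, rfl⟩
  rw [← yv_norm, ← h1] at hx
  have h2 : ⟪p i, yv g x⟫ ^ 2 ≤ ‖p i‖ ^ 2 * ‖yv g x‖ ^ 2 := by
    rw [← mul_pow, ← sq_abs ⟪p i, yv g x⟫]
    exact pow_le_pow_left₀ (abs_nonneg _) (abs_real_inner_le_norm _ _) 2
  have h3 : ℓ * ‖yv g x‖ ^ 2 < ‖p i‖ ^ 2 * ‖yv g x‖ ^ 2 := lt_of_lt_of_le hx h2
  exact lt_of_mul_lt_mul_right h3 (sq_nonneg _)

theorem PP.expand {F : Submodule ℝ (E N)} {p : Fin N → E N} (h : PP F p) {y : E N} (hy : y ∈ F) :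
    ∑ j, y j • p j = y := by
  have hmem : ∑ j, y j • p j - y ∈ F :=
    Submodule.sub_mem _ (Submodule.sum_mem _ fun j _ => Submodule.smul_mem _ _ (h.mem j)) hy
  have h1 : ∀ z ∈ F, ⟪∑ j, y j • p j - y, z⟫ = 0 := by
    intro z hz
    rw [inner_sub_left, sum_inner, sub_eq_zero, PiLp.inner_apply]
    refine Finset.sum_congr rfl fun j _ => ?_
    rw [inner_smul_left, h.rep j z hz]
    simp [mul_comm]
  exact sub_eq_zero.1 (inner_self_eq_zero.1 (h1 _ hmem))

theorem slack_le {y : E N} (hy : ∀ j, |y j| ≤ 1) :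
    ‖y - sv (pat y)‖ ^ 2 ≤ ∑ j, (1 - y j ^ 2) := by
  classical
  rw [EuclideanSpace.real_norm_sq_eq]
  refine Finset.sum_le_sum fun j _ => ?_
  have h1 := abs_le.1 (hy j)
  simp only [PiLp.sub_apply, sv, pat, decide_eq_true_eq]
  split_ifs with h
  · nlinarith
  · nlinarith

/-- a vertex has many active inequalities -/
theorem active (g : Fin N → E d) {x : E d} (hx : x ∈ Set.extremePoints ℝ (Sec g)) :
    ∃ s : Finset (Fin N), s.card = d ∧ ∀ j ∈ s, |⟪g j, x⟫| = 1 := by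
  rw [sec_eq] at hx
  obtain ⟨s, hs, σ, -, hv⟩ := ext_cand {1, -1} hSpm (fun _ => 1) g hx
  refine ⟨s, hs, fun j hj => ?_⟩
  have hr : j ∈ Set.range (s.orderEmbOfFin hs) := by
    rw [Finset.range_orderEmbOfFin]
    exact hj
  obtain ⟨i, rfl⟩ := hr
  rw [hv i, mul_one]
  rcases hSpm _ (σ i).2 with h | h <;> rw [h] <;> norm_num

/-- small codimension: every vertex is near its sign vector -/
theorem pat_near {k : ℕ} (hN : N = d + k) (g : Fin N → E d)
    (hinj : Function.Injective (yL g)) {ℓ : ℝ} (hl : LowLev ℓ g) (hℓ : ℓ ≤ 1) {β : ℝ} (hβ1 : β ≤ 1)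
    (hβ : (k : ℝ) ^ 2 * (1 - ℓ) < β * N)
    {x : E d} (hx : x ∈ Set.extremePoints ℝ (Sec g)) : g ∈ Ev (1 - β) (sv (pat (yv g x))) := by
  classical
  have hfr : Module.finrank ℝ (LinearMap.range (yL g)) = d := by
    rw [LinearMap.finrank_range_of_inj hinj, finrank_euclideanSpace_fin]
  obtain ⟨p, hp1, hp2, -⟩ := projs (LinearMap.range (yL g)) hfr
  have hP : PP (LinearMap.range (yL g)) p := ⟨hp1, hp2⟩
  set y := yv g x with hy
  have hyF : y ∈ LinearMap.range (yL g) := ⟨x, rfl⟩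
  set τ := pat y with hτ
  set w : E N := ∑ j, (sv τ) j • p j with hw
  have hwF : w ∈ LinearMap.range (yL g) :=
    Submodule.sum_mem _ fun j _ => Submodule.smul_mem _ _ (hP.mem j)
  have hxK : x ∈ Sec g := extremePoints_subset hx
  obtain ⟨s, hs, hact⟩ := active g hx
  set q : Fin N → E N := fun j => EuclideanSpace.single j (1:ℝ) - p j with hq
  have hqn : ∀ j, ‖q j‖ ≤ Real.sqrt (1 - ℓ) := by
    intro j
    apply Real.le_sqrt_of_sq_le
    have h1 : ‖q j‖ ^ 2 = 1 - ‖p j‖ ^ 2 := by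
      simp only [hq]
      rw [norm_sub_sq_real, EuclideanSpace.inner_single_left, hP.self]
      simp
      ring
    rw [h1]
    linarith [hP.of_low hl j]
  have hz : ∀ z : E N, ∑ j, z j • q j = z - ∑ j, z j • p j := by
    intro z
    simp only [hq, smul_sub]
    rw [Finset.sum_sub_distrib]
    congr 1
    ext i
    simp [Pi.single_apply]
  have h1 : sv τ - w = ∑ j, ((sv τ) j - y j) • q j := by
    simp only [sub_smul]
    rw [Finset.sum_sub_distrib, hz, hz, hP.expand hyF]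
    simp [hw]
  have hsg : ∀ j, |(sv τ) j - y j| = 1 - |y j| := by
    intro j
    have h2 := hxK j
    have h3 : y j = ⟪g j, x⟫ := rfl
    rw [← h3] at h2
    have h4 := abs_le.1 h2
    simp only [hτ, sv, pat, decide_eq_true_eq]
    split_ifs with h
    · rw [abs_of_nonneg h, abs_of_nonneg (by linarith)]
    · push Not at h
      rw [abs_of_neg h, abs_of_nonpos (by linarith)]
      ring
  have hkr : ((sᶜ).card : ℝ) = k := by
    rw [Finset.card_compl, hs, Fintype.card_fin, hN]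
    congr 1
    omega
  have h2 : ‖w - sv τ‖ ≤ k * Real.sqrt (1 - ℓ) := by
    rw [norm_sub_rev, h1]
    calc ‖∑ j, ((sv τ) j - y j) • q j‖ ≤ ∑ j, ‖((sv τ) j - y j) • q j‖ := norm_sum_le _ _
      _ = ∑ j, (1 - |y j|) * ‖q j‖ := by
          refine Finset.sum_congr rfl fun j _ => ?_
          rw [norm_smul, Real.norm_eq_abs, hsg]
      _ = ∑ j ∈ sᶜ, (1 - |y j|) * ‖q j‖ := by
          symm
          apply Finset.sum_subset (Finset.subset_univ _)
          intro j _ hj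
          have hj' : j ∈ s := by simpa using hj
          have h3 : |y j| = 1 := hact j hj'
          rw [h3]
          ring
      _ ≤ ∑ j ∈ sᶜ, Real.sqrt (1 - ℓ) := by
          refine Finset.sum_le_sum fun j _ => ?_
          have h3 : 0 ≤ |y j| := abs_nonneg _
          have h4 := norm_nonneg (q j)
          have h5 := hqn j
          have h6 : |y j| ≤ 1 := hxK j
          nlinarith
      _ = k * Real.sqrt (1 - ℓ) := by
          rw [Finset.sum_const, nsmul_eq_mul, hkr]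
  have h3 : ‖w - sv τ‖ ^ 2 < β * N := by
    refine lt_of_le_of_lt ?_ hβ
    calc ‖w - sv τ‖ ^ 2 ≤ (k * Real.sqrt (1 - ℓ)) ^ 2 := pow_le_pow_left₀ (norm_nonneg _) h2 2
      _ = _ := by rw [mul_pow, Real.sq_sqrt (by linarith)]
  obtain ⟨x', hx'⟩ := hwF
  have h4 := near w τ β hβ1 h3
  exact ⟨x', by
    have : yv g x' = w := hx'
    rw [this]
    exact h4⟩

/-- small codimension -/
theorem det_small {k : ℕ} (hd : 1 ≤ d) (hN : N = d + k) (g : Fin N → E d)
    (hgp : ∀ (s : Finset (Fin N)) (hs : s.card = d),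
      LinearIndependent ℝ (fun i => g (s.orderEmbOfFin hs i))) {ℓ : ℝ} (hl : LowLev ℓ g)
    (hℓ : ℓ ≤ 1) {β : ℝ} (hβ1 : β ≤ 1) (hβ : (k : ℝ) ^ 2 * (1 - ℓ) < β * N) :
    Good (patN β g) (Sec g) := by
  classical
  have hdN : d ≤ N := by omega
  have hrec : ¬ Rec ({1, -1} : Finset ℝ) g := not_rec hdN (by simp) (by simp) hgp
  have hbody : IsBody (Sec g) := by
    rw [sec_eq]
    exact poly_body hd {1, -1} (fun _ => 1) g (fun _ => one_pos) hrec
  refine ⟨hbody, ?_⟩
  have hinj := inj_of_gp hdN g hgp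
  exact cover_pat' g hbody (Finset.univ.filter fun τ : Fin N → Bool => g ∈ Ev (1 - β) (sv τ))
    fun x hx => Finset.mem_filter.2 ⟨Finset.mem_univ _, pat_near hN g hinj hl hℓ hβ1 hβ hx⟩

/-- medium codimension -/
theorem det_mid (hd : 1 ≤ d) (hdN : d ≤ N) (g : Fin N → E d)
    (hgp : ∀ (s : Finset (Fin N)) (hs : s.card = d),
      LinearIndependent ℝ (fun i => g (s.orderEmbOfFin hs i)))
    (hnull : ∀ c : Cand d N {1, -1}, g ∉ NullC (fun _ => 1) c) {ℓ : ℝ} (hl : LowLev ℓ g)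
    (hℓ0 : 0 < ℓ) {β : ℝ} (hβ1 : β ≤ 1) (R : ℝ) (hR : 1 ≤ R)
    (hRt : (1 + ℓ) ^ 2 / (4 * ℓ) * (d - ℓ * (β * N)) ≤ R ^ 2) :
    Good (patN β g + bnd d d R) (Sec g) := by
  classical
  have hg : ∀ i, g i ≠ 0 := by
    intro i
    obtain ⟨s, his, hs⟩ : ∃ s : Finset (Fin N), i ∈ s ∧ s.card = d := by
      obtain ⟨s, hs1, -, hs2⟩ := Finset.exists_subsuperset_card_eq
        (s := {i}) (t := (Finset.univ : Finset (Fin N))) (n := d) (Finset.subset_univ _)
        (by rw [Finset.card_singleton]; omega)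
        (by rw [Finset.card_univ, Fintype.card_fin]; exact hdN)
      exact ⟨s, hs1 (Finset.mem_singleton_self i), hs2⟩
    have hr : i ∈ Set.range (s.orderEmbOfFin hs) := by
      rw [Finset.range_orderEmbOfFin]
      exact his
    obtain ⟨k, hk⟩ := hr
    have := (hgp s hs).ne_zero k
    rwa [hk] at this
  have hb : ∀ i, 0 < (fun _ : E d => (1:ℝ)) (g i) := fun _ => one_pos
  have hrec : ¬ Rec ({1, -1} : Finset ℝ) g := not_rec hdN (by simp) (by simp) hgp
  have hbody : IsBody (Sec g) := by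
    rw [sec_eq]
    exact poly_body hd {1, -1} (fun _ => 1) g hb hrec
  refine ⟨hbody, ?_⟩
  have hinj := inj_of_gp hdN g hgp
  have hfr : Module.finrank ℝ (LinearMap.range (yL g)) = d := by
    rw [LinearMap.finrank_range_of_inj hinj, finrank_euclideanSpace_fin]
  obtain ⟨p, hp1, hp2, hp3⟩ := projs (LinearMap.range (yL g)) hfr
  have hP : PP (LinearMap.range (yL g)) p := ⟨hp1, hp2⟩
  have hpl : ∀ i, ℓ ≤ ‖p i‖ ^ 2 := fun i => (hP.of_low hl i).le
  -- the weighted map
  set D : E d →ₗ[ℝ] E N :=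
    { toFun := fun x => WithLp.toLp 2 fun j => ‖p j‖ * ⟪g j, x⟫
      map_add' := fun x y => by
        ext j
        simp [inner_add_right, mul_add]
      map_smul' := fun c x => by
        ext j
        simp [inner_smul_right]
        ring } with hD
  have hDa : ∀ x, ‖D x‖ ^ 2 = ∑ j, ‖p j‖ ^ 2 * ⟪g j, x⟫ ^ 2 := by
    intro x
    rw [EuclideanSpace.real_norm_sq_eq]
    refine Finset.sum_congr rfl fun j _ => ?_
    have : (D x) j = ‖p j‖ * ⟪g j, x⟫ := rfl
    rw [this, mul_pow]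
  have hDinj : Function.Injective D := by
    rw [← LinearMap.ker_eq_bot, LinearMap.ker_eq_bot']
    intro x hx
    apply (injective_iff_map_eq_zero (yL g)).1 hinj
    ext j
    have h1 : ‖p j‖ * ⟪g j, x⟫ = 0 := by
      have := congrArg (fun v : E N => v j) hx
      exact this
    have h2 : ‖p j‖ ≠ 0 := by
      intro h0
      have := hpl j
      rw [h0] at this
      norm_num at this
      linarith
    have h3 : ⟪g j, x⟫ = 0 := by
      rcases mul_eq_zero.1 h1 with h | h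
      · exact absurd h h2
      · exact h
    exact h3
  set a : ℝ := (1 + ℓ) ^ 2 / (4 * ℓ) with ha
  have ha0 : 0 < a := by positivity
  obtain ⟨A, hA⟩ := ell D hDinj a ha0
  have hell : ContainsEllipsoid A 0 (Sec g) := by
    intro z hz i
    rw [sub_zero] at hz
    have h1 := hP.ell_le hℓ0 hpl i (y := yv g z) ⟨z, rfl⟩
    have h3 : (yv g z) i ^ 2 ≤ ‖A z‖ ^ 2 := by
      rw [hA, hDa]
      exact h1
    have h2 : ‖A z‖ ^ 2 ≤ 1 := pow_le_one₀ (norm_nonneg _) hz
    exact (sq_le_one_iff_abs_le_one _).1 (h3.trans h2)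
  refine cover_pat hd g hbody (Finset.univ.filter fun τ : Fin N → Bool => g ∈ Ev (1 - β) (sv τ))
    A R hR fun x hx => ?_
  have hxK : x ∈ Sec g := extremePoints_subset hx
  by_cases hslack : ∑ j, (1 - ⟪g j, x⟫ ^ 2) < β * N
  · left
    refine Finset.mem_filter.2 ⟨Finset.mem_univ _, x, ?_⟩
    apply near _ _ _ hβ1
    exact lt_of_le_of_lt (slack_le (y := yv g x) fun j => hxK j) hslack
  · right
    push Not at hslack
    have hfr' : x ∈ frontier (Sec g) := extreme_frontier hd hx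
    have hcorner : IsCorner d (Sec g) x := by
      rw [sec_eq] at hxK hfr' ⊢
      exact poly_corner_d {1, -1} hSpm hb hg hgp hnull hxK hfr'.2
    refine seen_of_corner hell ?_ hcorner
    rw [sub_zero]
    have hle : ‖A x‖ ^ 2 ≤ R ^ 2 := by
      rw [hA, hDa]
      refine le_trans (mul_le_mul_of_nonneg_left ?_ ha0.le) hRt
      have h1 : ∑ j, ‖p j‖ ^ 2 * ⟪g j, x⟫ ^ 2 =
          d - ∑ j, ‖p j‖ ^ 2 * (1 - ⟪g j, x⟫ ^ 2) := by
        rw [← hp3, ← Finset.sum_sub_distrib]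
        refine Finset.sum_congr rfl fun j _ => ?_
        ring
      have h2 : ℓ * ∑ j, (1 - ⟪g j, x⟫ ^ 2) ≤ ∑ j, ‖p j‖ ^ 2 * (1 - ⟪g j, x⟫ ^ 2) := by
        rw [Finset.mul_sum]
        refine Finset.sum_le_sum fun j _ => mul_le_mul_of_nonneg_right (hpl j) ?_
        have := (sq_le_one_iff_abs_le_one ⟪g j, x⟫).2 (hxK j)
        linarith
      have h3 := mul_le_mul_of_nonneg_left hslack hℓ0.le
      rw [h1]
      linarith
    exact (sq_le_sq₀ (norm_nonneg _) (by linarith)).1 hle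

end Pool.Agent.J4H48.RS
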