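import Pool.Agent.J4H48.RS.Geo
import Pool.Agent.J4H48.RS.Low

/-!
# Sign patterns
-/

set_option autoImplicit false

open MeasureTheory ProbabilityTheory Filter Topology
open scoped RealInnerProductSpace ENNReal Matrix

namespace Pool.Agent.J4H48.RS

open Pool.Agent.PZ871 (E gm)
open Pool.Agent.TH84.HC
open Pool.Agent.J4H48.RP

variable {d N : ℕ}

/-- the sign vector of a pattern -/
noncomputable def sv (τ : Fin N → Bool) : E N := WithLp.toLp 2 fun j => if τ j then 1 else -1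

theorem sv_norm (τ : Fin N → Bool) : ‖sv τ‖ ^ 2 = N := by
  rw [EuclideanSpace.real_norm_sq_eq]
  have : ∀ j : Fin N, (sv τ) j ^ 2 = 1 := by
    intro j
    simp only [sv]
    split_ifs <;> norm_num
  simp [this]

open Classical in
/-- the sign pattern of a vector -/
noncomputable def pat (y : E N) : Fin N → Bool := fun j => decide (0 ≤ y j)

/-- a vector near a sign vector makes a small angle with it -/
theorem near (y : E N) (τ : Fin N → Bool) (β : ℝ) (hβ : β ≤ 1) (h : ‖y - sv τ‖ ^ 2 < β * N) :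
    (1 - β) * ‖sv τ‖ ^ 2 * ‖y‖ ^ 2 < ⟪sv τ, y⟫ ^ 2 := by
  rw [norm_sub_sq_real, sv_norm, real_inner_comm] at h
  rw [sv_norm]
  set p := ⟪sv τ, y⟫ with hp
  set a := ‖y‖ ^ 2 with ha
  have ha0 : 0 ≤ a := sq_nonneg _
  have hN0 : (0:ℝ) ≤ N := Nat.cast_nonneg _
  have h1 : a + (1 - β) * N < 2 * p := by linarith
  have h2 : 0 ≤ (1 - β) * N := mul_nonneg (by linarith) hN0
  have h3 : (a + (1 - β) * N) ^ 2 < (2 * p) ^ 2 := by
    apply pow_lt_pow_left₀ h1 (by linarith) (by norm_num)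
  nlinarith [sq_nonneg (a - (1 - β) * N)]

open Classical in
/-- the number of sign vectors near the range of `g` -/
noncomputable def patN (β : ℝ) (g : Fin N → E d) : ℕ :=
  (Finset.univ.filter fun τ : Fin N → Bool => g ∈ Ev (1 - β) (sv τ)).card

theorem sv_ne (hN : 1 ≤ N) (τ : Fin N → Bool) : sv τ ≠ 0 := by
  intro h
  have := sv_norm τ
  rw [h, norm_zero] at this
  have h1 : (1:ℝ) ≤ N := by exact_mod_cast hN
  norm_num at this
  linarith

theorem pat_markov (hN : 1 ≤ N) (β : ℝ) (κ : ℝ) (hκ0 : 0 ≤ κ)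
    (hκ : ∀ W : Submodule ℝ (E N), Module.finrank ℝ W ≤ d →
      gm N {v | ∃ w ∈ W, (1 - β) * ‖v‖ ^ 2 * ‖w‖ ^ 2 < ⟪v, w⟫ ^ 2} ≤ ENNReal.ofReal κ)
    (y : ℝ) (hy : 0 < y) :
    (Measure.pi fun _ : Fin N => gm d) {g | y ≤ patN β g} ≤ ENNReal.ofReal (2 ^ N * κ / y) := by
  classical
  set P := (Measure.pi fun _ : Fin N => gm d) with hP
  set X : (Fin N → E d) → ℝ≥0∞ := fun g => ∑ τ : Fin N → Bool, (Ev (1 - β) (sv τ)).indicator 1 g with hX
  have hXm : Measurable X :=
    Finset.measurable_sum _ fun c _ => measurable_one.indicator (ev_meas _ _)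
  have hXe : ∀ g, X g = (patN β g : ℝ≥0∞) := by
    intro g
    simp only [hX, Set.indicator_apply, Pi.one_apply]
    rw [Finset.sum_boole]
    rfl
  have hXint : ∫⁻ g, X g ∂P ≤ (2 : ℝ≥0∞) ^ N * ENNReal.ofReal κ := by
    rw [hX, lintegral_finsetSum _ fun c _ => measurable_one.indicator (ev_meas _ _)]
    calc ∑ τ : Fin N → Bool, ∫⁻ g, (Ev (1 - β) (sv τ)).indicator 1 g ∂P
        = ∑ τ : Fin N → Bool, P (Ev (1 - β) (sv τ)) :=
          Finset.sum_congr rfl fun c _ => lintegral_indicator_one (ev_meas _ _)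
      _ ≤ ∑ τ : Fin N → Bool, ENNReal.ofReal κ :=
          Finset.sum_le_sum fun τ _ => ev_le hN (1 - β) _ hκ (sv τ) (sv_ne hN τ)
      _ = (2 : ℝ≥0∞) ^ N * ENNReal.ofReal κ := by
          rw [Finset.sum_const, Finset.card_univ, nsmul_eq_mul]
          simp
  have hsub : {g : Fin N → E d | y ≤ patN β g} ⊆ {g | ENNReal.ofReal y ≤ X g} := by
    intro g hg
    show ENNReal.ofReal y ≤ X g
    rw [hXe, ← ENNReal.ofReal_natCast]
    exact ENNReal.ofReal_le_ofReal hg
  have hmk := meas_ge_le_lintegral_div (μ := P) hXm.aemeasurable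
    (ENNReal.ofReal_pos.2 hy).ne' ENNReal.ofReal_ne_top
  refine (measure_mono hsub).trans (hmk.trans ((ENNReal.div_le_div_right hXint _).trans (le_of_eq ?_)))
  rw [ENNReal.ofReal_div_of_pos hy, ENNReal.ofReal_mul (by positivity),
    ENNReal.ofReal_pow (by norm_num), ENNReal.ofReal_ofNat]

/-- the probability that a sign vector is near the range, numerically -/
theorem num_pat (hd : 1 ≤ d) (k : ℕ) (hk : 1 ≤ k) (hN : N = d + k) (β : ℝ) (hβ0 : 0 < β)
    (hβ : β * N ≤ k) (W : Submodule ℝ (E N)) (hW : Module.finrank ℝ W ≤ d) :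
    gm N {v | ∃ w ∈ W, (1 - β) * ‖v‖ ^ 2 * ‖w‖ ^ 2 < ⟪v, w⟫ ^ 2} ≤
      ENNReal.ofReal (Real.sqrt (Real.exp 1 * (β * N / k)) ^ k) := by
  have hdN : d ≤ N := by omega
  have hd0 : (0:ℝ) < d := by exact_mod_cast hd
  have hk0 : (0:ℝ) < k := by exact_mod_cast hk
  have hNr : (N : ℝ) = d + k := by rw [hN]; push_cast; ring
  have hN0 : (0:ℝ) < N := by rw [hNr]; linarith
  have hβ1 : β < 1 := by
    have h1 : β * N < 1 * N := by rw [one_mul]; linarith
    exact lt_of_mul_lt_mul_right h1 hN0.le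
  set s : ℝ := (k / N - β) / ((1 - β) * β) with hs
  have h1β : 0 < 1 - β := by linarith
  have hkβ : 0 ≤ k / N - β := by
    rw [sub_nonneg, le_div_iff₀ hN0]
    exact hβ
  have hs0 : 0 ≤ s := by positivity
  have e1 : s * (1 - (1 - β)) = (k / N - β) / (1 - β) := by
    rw [hs]
    field_simp
    ring
  have e2 : 1 - s * (1 - (1 - β)) = ((1 - β) * N / d)⁻¹ := by
    rw [e1, inv_div]
    field_simp
    rw [hNr]
    ring
  have e3 : 1 + s * (1 - β) = (β * N / k)⁻¹ := by
    rw [hs, inv_div]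
    field_simp
    ring
  have hs1 : s * (1 - (1 - β)) < 1 := by
    have : 0 < ((1 - β) * N / d)⁻¹ := by positivity
    linarith
  refine (sub_tail hdN W hW (1 - β) s hs0 hs1 h1β.le).trans ?_
  have hNd : N - d = k := by omega
  rw [hNd, e2, e3]
  have b1 : (((1 - β) * N / d)⁻¹) ^ (-(1 / 2 : ℝ)) ≤ Real.exp (k / d / 2) := by
    rw [Real.inv_rpow (by positivity), Real.rpow_neg (by positivity), inv_inv]
    calc ((1 - β) * N / d) ^ (1 / 2 : ℝ) ≤ (Real.exp (k / d)) ^ (1 / 2 : ℝ) := by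
          apply Real.rpow_le_rpow (by positivity) _ (by norm_num)
          have h2 : (1 - β) * N / d ≤ k / d + 1 := by
            rw [div_add_one hd0.ne']
            gcongr
            nlinarith
          linarith [Real.add_one_le_exp (k / d : ℝ)]
      _ = _ := by
          rw [← Real.exp_mul]
          congr 1
          ring
  have b2 : ((β * N / k)⁻¹) ^ (-(1 / 2 : ℝ)) = Real.sqrt (β * N / k) := by
    rw [Real.inv_rpow (by positivity), Real.rpow_neg (by positivity), inv_inv,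
      Real.sqrt_eq_rpow]
  rw [b2]
  calc ENNReal.ofReal ((((1 - β) * N / d)⁻¹) ^ (-(1 / 2 : ℝ))) ^ d *
        ENNReal.ofReal (Real.sqrt (β * N / k)) ^ k
      ≤ ENNReal.ofReal (Real.exp (k / d / 2)) ^ d * ENNReal.ofReal (Real.sqrt (β * N / k)) ^ k := by
        gcongr
    _ = ENNReal.ofReal (Real.exp (k / d / 2) ^ d * Real.sqrt (β * N / k) ^ k) := by
        rw [ENNReal.ofReal_mul (by positivity), ENNReal.ofReal_pow (Real.exp_pos _).le,
          ENNReal.ofReal_pow (Real.sqrt_nonneg _)]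
    _ = _ := by
        congr 1
        have e4 : Real.exp (k / d / 2) ^ d = Real.sqrt (Real.exp 1) ^ k := by
          rw [← Real.exp_half, ← Real.exp_nat_mul, ← Real.exp_nat_mul]
          congr 1
          field_simp
        rw [e4, ← mul_pow, Real.sqrt_mul (Real.exp_pos _).le]

end Pool.Agent.J4H48.RS
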