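import Pool.Agent.J4H48.RS.Cor

/-!
# Random central sections of the cube
-/

set_option autoImplicit false

open MeasureTheory ProbabilityTheory Filter Topology
open scoped RealInnerProductSpace ENNReal Matrix

namespace Pool.Agent.J4H48.RS

open Pool.Agent.PZ871 (E gm)
open Pool.Agent.TH84.HC
open Pool.Agent.J4H48.RP

variable {d N : ℕ}

/-- the covering bound, numerically -/
theorem num_bnd (hd : 2 ≤ d) (δ : ℝ) (hδ : 0 < δ) (hδ1 : δ ≤ 1) :
    1 ≤ Real.sqrt ((1 - δ ^ 2 / 880) * d) ∧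
    bnd d d (Real.sqrt ((1 - δ ^ 2 / 880) * d)) ≤
      1 + 320 * d ^ 4 * 2 ^ d * Real.exp (-(δ ^ 2 * d / 3520)) := by
  have hd2 : (2:ℝ) ≤ d := by exact_mod_cast hd
  have hδ2 : δ ^ 2 ≤ 1 := pow_le_one₀ hδ.le hδ1
  have hδ0 : 0 < δ ^ 2 := by positivity
  have h1 : 1 ≤ (1 - δ ^ 2 / 880) * d := by nlinarith
  have hR := Real.one_le_sqrt.2 h1
  refine ⟨hR, ?_⟩
  unfold bnd
  rw [Real.sq_sqrt (by linarith)]
  set A : ℝ := (1 - δ ^ 2 / 880) * d with hA
  have hAd : A ≤ d := by rw [hA]; nlinarith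
  have h2 : Real.exp ((A - d) / Real.pi) ≤ Real.exp (-(δ ^ 2 * d / 3520)) := by
    apply Real.exp_le_exp.2
    have e : A - d = -(δ ^ 2 * d / 880) := by rw [hA]; ring
    rw [e, neg_div, neg_le_neg_iff, le_div_iff₀ Real.pi_pos]
    have h3 : 0 ≤ δ ^ 2 * d := by positivity
    nlinarith [Real.pi_lt_four]
  have h3 : Real.log (8 * A * (d + d + A + 4)) ≤ 40 * d ^ 2 := by
    have h4 : 0 < 8 * A * (d + d + A + 4) := by positivity
    refine (Real.log_le_sub_one_of_pos h4).trans ?_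
    have h5 : 8 * A * (d + d + A + 4) ≤ 8 * d * (5 * d) := by
      apply mul_le_mul _ _ (by positivity) (by positivity)
      · linarith
      · linarith
    nlinarith
  have h4 : 8 * (d:ℝ) * d * 2 ^ d * Real.exp ((A - d) / Real.pi) *
      Real.log (8 * A * (d + d + A + 4)) ≤
      8 * (d:ℝ) * d * 2 ^ d * Real.exp (-(δ ^ 2 * d / 3520)) * (40 * d ^ 2) := by
    apply mul_le_mul _ h3 _ (by positivity)
    · gcongr
    · apply Real.log_nonneg
      nlinarith
  calc 1 + 8 * (d:ℝ) * d * 2 ^ d * Real.exp ((A - d) / Real.pi) *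
      Real.log (8 * A * (d + d + A + 4)) ≤
      1 + 8 * (d:ℝ) * d * 2 ^ d * Real.exp (-(δ ^ 2 * d / 3520)) * (40 * d ^ 2) := by linarith
    _ = _ := by ring

/-- polynomials against the exponential -/
theorem exp_ge (hd : 2 ≤ d) (m : ℕ) (x C a : ℝ) (ha : 0 < a) (hx : C * Real.log d ≤ x)
    (hC : a * m ≤ C) : (d : ℝ) ^ m ≤ Real.exp (x / a) := by
  have hd2 : (2:ℝ) ≤ d := by exact_mod_cast hd
  have hlog : 0 ≤ Real.log d := Real.log_nonneg (by linarith)
  have h1 : (m : ℝ) * Real.log d ≤ x / a := by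
    rw [le_div_iff₀ ha]
    nlinarith
  calc (d : ℝ) ^ m = Real.exp (m * Real.log d) := by
        rw [Real.exp_nat_mul, Real.exp_log (by linarith)]
    _ ≤ _ := Real.exp_le_exp.2 h1

/-- **Random central sections of the cube.** -/
theorem sections : ∃ c C : ℝ, 0 < c ∧ ∀ d : ℕ, 2 ≤ d → ∀ δ : ℝ, 0 < δ → δ ≤ 1 →
    C * Real.log d ≤ δ ^ 4 * d → ∀ N : ℕ, (1 + δ) * d ≤ N →
    Law d N {g | ¬ Good (2 ^ d * Real.exp (-(c * δ ^ 2 * d))) (Sec g)} ≤
      ENNReal.ofReal (Real.exp (-(c * δ ^ 4 * d))) := by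
  obtain ⟨C₁, d₁, hmany⟩ := many_one (1/4) (by norm_num)
  set a : ℝ := 12390400 with ha
  set C : ℝ := max (a * 13) (2 * (C₁ + d₁ + 1)) with hC
  refine ⟨1 / a, C, by norm_num [ha], fun d hd δ hδ hδ1 hCd N hN => ?_⟩
  have hd2 : (2:ℝ) ≤ d := by exact_mod_cast hd
  have hd0 : (0:ℝ) < d := by linarith
  have hδ2 : δ ^ 2 ≤ 1 := pow_le_one₀ hδ.le hδ1
  have hδ4 : δ ^ 4 ≤ δ ^ 2 := pow_le_pow_of_le_one hδ.le hδ1 (by norm_num)
  have hC13 : a * 13 ≤ C := le_max_left _ _
  have hC0 : 0 < C := lt_of_lt_of_le (by norm_num [ha]) hC13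
  have hlog2 : (1:ℝ) / 2 ≤ Real.log d := by
    have h1 : Real.log 2 ≤ Real.log d := Real.log_le_log (by norm_num) hd2
    have h2 := Real.log_two_gt_d9
    linarith
  -- the dimension is large
  have hbig : (C₁ : ℝ) + d₁ + 1 ≤ d := by
    have h1 : δ ^ 4 * d ≤ d := by
      have : δ ^ 4 ≤ 1 := hδ4.trans hδ2
      nlinarith
    have h2 : C * (1 / 2) ≤ C * Real.log d := mul_le_mul_of_nonneg_left hlog2 hC0.le
    have h3 : 2 * (C₁ + d₁ + 1) ≤ C := le_max_right _ _
    linarith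
  have hδd : 0 ≤ δ ^ 2 * d := by positivity
  have hδ4d : δ ^ 4 * d ≤ δ ^ 2 * d := mul_le_mul_of_nonneg_right hδ4 hd0.le
  have hδ2d : δ ^ 2 * d ≤ d := by nlinarith
  have hdN : d ≤ N := by
    have : (d : ℝ) ≤ N := by nlinarith
    exact_mod_cast this
  have hpos4 : 0 ≤ δ ^ 4 * d := by positivity
  by_cases hNs : C₁ * d ≤ N
  · -- many facets
    have hdd : d₁ ≤ d := by
      have : (d₁ : ℝ) ≤ d := by
        have : (0:ℝ) ≤ C₁ := Nat.cast_nonneg _
        linarith
      exact_mod_cast this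
    have h1 := hmany d hdd N hNs {1, -1} hSpm (by simp)
    have h2 : {g : Fin N → E d | ¬ Good (2 ^ d * Real.exp (-(1 / a * δ ^ 2 * d))) (Sec g)} ⊆
        {g | ¬ Good ((1 + 1/4) ^ d) (Poly {1, -1} (fun _ => 1) g)} := by
      intro g hg hgood
      apply hg
      rw [sec_eq]
      refine hgood.mono ?_
      have h3 : (1 + 1/4 : ℝ) ≤ 2 * Real.exp (-(1/4)) := by
        have := Real.add_one_le_exp (-(1/4 : ℝ))
        linarith
      calc (1 + 1/4 : ℝ) ^ d ≤ (2 * Real.exp (-(1/4))) ^ d :=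
            pow_le_pow_left₀ (by norm_num) h3 d
        _ = 2 ^ d * Real.exp (-(1/4 * d)) := by
            rw [mul_pow, ← Real.exp_nat_mul]
            congr 2
            ring
        _ ≤ _ := by
            gcongr
            have : 1 / a * δ ^ 2 = δ ^ 2 / a := by ring
            rw [this, div_le_iff₀ (by norm_num [ha]), ha]
            linarith
    refine (measure_mono h2).trans (h1.trans (ENNReal.ofReal_le_ofReal ?_))
    have h3 : (1/4 : ℝ) ≤ Real.exp (-(3/4)) := by
      have := Real.add_one_le_exp (-(3/4 : ℝ))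
      linarith
    calc (1/4 : ℝ) ^ d ≤ (Real.exp (-(3/4))) ^ d := pow_le_pow_left₀ (by norm_num) h3 d
      _ = Real.exp (-(3/4 * d)) := by
          rw [← Real.exp_nat_mul]
          congr 1
          ring
      _ ≤ _ := by
          apply Real.exp_le_exp.2
          rw [neg_le_neg_iff]
          have : 1 / a * δ ^ 4 * d = (δ ^ 4 * d) / a := by ring
          rw [this, div_le_iff₀ (by norm_num [ha]), ha]
          linarith
  · -- few facets
    set ε : ℝ := δ ^ 2 / 880 with hε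
    have hε0 : 0 < ε := by rw [hε]; positivity
    have hε1 : ε ≤ 1 := by rw [hε]; linarith
    have hεN : ε * d < (N : ℝ) - d := by
      have h1 : δ ^ 2 ≤ δ := by nlinarith
      have h2 : ε * d < δ * d := by
        apply mul_lt_mul_of_pos_right _ hd0
        rw [hε]
        linarith
      linarith
    set t : ℝ := (1 + ε) * d / N with ht
    set s : ℝ := ε / ((1 + ε) * (1 - t)) with hs
    obtain ⟨ht0, hs0, hs1, hlev⟩ := num_lev (by omega : 1 ≤ d) hdN ε hε0 hε1 hεN t s ht hs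
    obtain ⟨hR, hbnd⟩ := num_bnd hd δ hδ hδ1
    have hN0 : (0:ℝ) < N := lt_of_lt_of_le hd0 (by exact_mod_cast hdN)
    have hRt : t * ((1 - δ ^ 2 / 440) * N) ≤ (Real.sqrt ((1 - δ ^ 2 / 880) * d)) ^ 2 := by
      rw [Real.sq_sqrt (by
        have : 0 ≤ 1 - δ ^ 2 / 880 := by linarith
        positivity)]
      have e : t * ((1 - δ ^ 2 / 440) * N) = (1 + ε) * (1 - 2 * ε) * d := by
        rw [ht, hε]
        field_simp
        ring
      rw [e]
      have : (1 + ε) * (1 - 2 * ε) ≤ 1 - δ ^ 2 / 880 := by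
        rw [← hε]
        nlinarith
      exact mul_le_mul_of_nonneg_right this hd0.le
    have hcore := core_prob (by omega : 1 ≤ d) hdN t s (δ ^ 2 / 440) (220 / δ)
      (2 ^ d * Real.exp (-((N : ℝ) - d))) (Real.sqrt ((1 - δ ^ 2 / 880) * d)) hs0 hs1 ht0
      (by positivity) (by positivity) hR hRt
    have hexc := num_exc hdN δ hδ hδ1 hN
    have hk : δ * d ≤ (N : ℝ) - d := by linarith
    have hk2 : δ ^ 2 * d ≤ (N : ℝ) - d := by
      have h1 : δ ^ 2 ≤ δ := by nlinarith
      have := mul_le_mul_of_nonneg_right h1 hd0.le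
      linarith
    -- the number of translates
    have hnum : 2 ^ d * Real.exp (-((N : ℝ) - d)) +
        bnd d d (Real.sqrt ((1 - δ ^ 2 / 880) * d)) ≤ 2 ^ d * Real.exp (-(1 / a * δ ^ 2 * d)) := by
      have h1 : Real.exp (-((N : ℝ) - d)) ≤ Real.exp (-(δ ^ 2 * d / 3520)) := by
        apply Real.exp_le_exp.2
        linarith
      have h2 : 1 ≤ (2:ℝ) ^ d * Real.exp (-(δ ^ 2 * d / 3520)) := by
        have h3 : Real.exp (δ ^ 2 * d / 3520) ≤ 2 ^ d := by
          calc Real.exp (δ ^ 2 * d / 3520) ≤ Real.exp (1/2 * d) := by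
                apply Real.exp_le_exp.2
                linarith
            _ = Real.exp (1/2) ^ d := by
                rw [← Real.exp_nat_mul]
                congr 1
                ring
            _ ≤ 2 ^ d := by
                apply pow_le_pow_left₀ (Real.exp_pos _).le
                have h4 : Real.exp (1/2) ^ 2 ≤ 2 ^ 2 := by
                  rw [← Real.exp_nat_mul]
                  have := Real.exp_one_lt_d9
                  norm_num
                  linarith
                exact le_of_sq_le_sq h4 (by norm_num)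
        have h4 : Real.exp (δ ^ 2 * d / 3520) * Real.exp (-(δ ^ 2 * d / 3520)) = 1 := by
          rw [← Real.exp_add]
          simp
        rw [← h4]
        exact mul_le_mul_of_nonneg_right h3 (Real.exp_pos _).le
      have h3 : 2 ^ d * Real.exp (-((N : ℝ) - d)) +
          bnd d d (Real.sqrt ((1 - δ ^ 2 / 880) * d)) ≤
          2 ^ d * Real.exp (-(δ ^ 2 * d / 3520)) * (2 + 320 * d ^ 4) := by
        have h4 : 2 ^ d * Real.exp (-((N : ℝ) - d)) ≤ 2 ^ d * Real.exp (-(δ ^ 2 * d / 3520)) := by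
          gcongr
        calc _ ≤ 2 ^ d * Real.exp (-(δ ^ 2 * d / 3520)) +
              (2 ^ d * Real.exp (-(δ ^ 2 * d / 3520)) +
              320 * d ^ 4 * 2 ^ d * Real.exp (-(δ ^ 2 * d / 3520))) := by linarith
          _ = _ := by ring
      have h4 : 2 + 320 * (d:ℝ) ^ 4 ≤ d ^ 13 := by
        have e : (d:ℝ) ^ 13 = d ^ 4 * d ^ 9 := by ring
        have h5 : (512:ℝ) ≤ d ^ 9 := by
          calc (512:ℝ) = 2 ^ 9 := by norm_num
            _ ≤ d ^ 9 := pow_le_pow_left₀ (by norm_num) hd2 9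
        have h6 : (16:ℝ) ≤ d ^ 4 := by
          calc (16:ℝ) = 2 ^ 4 := by norm_num
            _ ≤ d ^ 4 := pow_le_pow_left₀ (by norm_num) hd2 4
        rw [e]
        nlinarith
      have h5 : (d:ℝ) ^ 13 ≤ Real.exp (δ ^ 2 * d / a) := by
        exact exp_ge hd 13 (δ ^ 2 * d) C a (by norm_num [ha]) (hCd.trans hδ4d) hC13
      have h6 : Real.exp (-(δ ^ 2 * d / 3520)) * Real.exp (δ ^ 2 * d / a) ≤
          Real.exp (-(1 / a * δ ^ 2 * d)) := by
        rw [← Real.exp_add]
        apply Real.exp_le_exp.2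
        rw [ha]
        linarith
      calc _ ≤ 2 ^ d * Real.exp (-(δ ^ 2 * d / 3520)) * (2 + 320 * d ^ 4) := h3
        _ ≤ 2 ^ d * Real.exp (-(δ ^ 2 * d / 3520)) * Real.exp (δ ^ 2 * d / a) := by
            gcongr
            exact h4.trans h5
        _ = 2 ^ d * (Real.exp (-(δ ^ 2 * d / 3520)) * Real.exp (δ ^ 2 * d / a)) := by ring
        _ ≤ _ := by gcongr
    have hsub : {g : Fin N → E d | ¬ Good (2 ^ d * Real.exp (-(1 / a * δ ^ 2 * d))) (Sec g)} ⊆
        {g | ¬ Good (2 ^ d * Real.exp (-((N : ℝ) - d)) +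
          bnd d d (Real.sqrt ((1 - δ ^ 2 / 880) * d))) (Sec g)} := by
      intro g hg hgood
      exact hg (hgood.mono hnum)
    refine (measure_mono hsub).trans (hcore.trans ((add_le_add hlev
      (ENNReal.ofReal_le_ofReal hexc)).trans ?_))
    rw [← ENNReal.ofReal_add (by positivity) (Real.exp_pos _).le]
    apply ENNReal.ofReal_le_ofReal
    have hNC : (N : ℝ) ≤ C₁ * d := by
      push Not at hNs
      exact_mod_cast hNs.le
    have e1 : (d : ℝ) * ε ^ 2 / 8 = 2 * (δ ^ 4 * d / a) := by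
      rw [hε, ha]
      ring
    rw [e1]
    have h7 : Real.exp (-((N : ℝ) - d)) ≤ Real.exp (-(2 * (δ ^ 4 * d / a))) := by
      apply Real.exp_le_exp.2
      rw [neg_le_neg_iff]
      have : 2 * (δ ^ 4 * d / a) ≤ δ ^ 4 * d := by
        rw [ha]
        linarith
      linarith
    have h8 : (N : ℝ) + 1 ≤ d ^ 13 := by
      have h9 : (C₁ : ℝ) + 1 ≤ d := by
        have : (0:ℝ) ≤ d₁ := Nat.cast_nonneg _
        linarith
      have h10 : (C₁ : ℝ) * d + 1 ≤ d ^ 2 := by nlinarith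
      have h11 : (d:ℝ) ^ 2 ≤ d ^ 13 := pow_le_pow_right₀ (by linarith) (by norm_num)
      linarith
    have h9 : (d:ℝ) ^ 13 ≤ Real.exp (δ ^ 4 * d / a) :=
      exp_ge hd 13 (δ ^ 4 * d) C a (by norm_num [ha]) hCd hC13
    calc (N : ℝ) * Real.exp (-(2 * (δ ^ 4 * d / a))) + Real.exp (-((N : ℝ) - d))
        ≤ (N + 1) * Real.exp (-(2 * (δ ^ 4 * d / a))) := by linarith
      _ ≤ Real.exp (δ ^ 4 * d / a) * Real.exp (-(2 * (δ ^ 4 * d / a))) := by
          gcongr
          linarith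
      _ = Real.exp (-(1 / a * δ ^ 4 * d)) := by
          rw [← Real.exp_add]
          congr 1
          ring

end Pool.Agent.J4H48.RS
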