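import Pool.Agent.J4H48.RS.Lw
import Pool.Agent.J4H48.RS.Sections

/-!
# Small and medium codimension
-/

set_option autoImplicit false

open MeasureTheory ProbabilityTheory Filter Topology
open scoped RealInnerProductSpace ENNReal Matrix

namespace Pool.Agent.J4H48.RS

open Pool.Agent.PZ871 (E gm)
open Pool.Agent.TH84.HC
open Pool.Agent.J4H48.RP

variable {d N : ℕ}

theorem low_num (hd : 1 ≤ d) (k : ℕ) (hN : N = d + k) (η : ℝ) (h0 : 0 ≤ η) (h1 : η ≤ 1) :
    Law d N {g | ¬ LowLev (1 - η) g} ≤ ENNReal.ofReal (N * Real.exp (k / 2 - η * d / 6)) := by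
  refine (low_prob (by omega) (by omega) (1 - η) (1/2) (by norm_num) (by linarith) (by linarith)
    (by linarith)).trans ?_
  have hNd : N - d = k := by omega
  rw [hNd]
  have b1 : (1 + 1/2 * (1 - (1 - η))) ^ (-(1 / 2 : ℝ)) ≤ Real.exp (-(η / 6)) := by
    have e1 : 1 + 1/2 * (1 - (1 - η)) = 1 + η / 2 := by ring
    rw [e1, Real.rpow_neg (by linarith), Real.exp_neg]
    apply inv_anti₀ (Real.exp_pos _)
    have h2 : Real.exp (η / 3) ≤ 1 + η / 2 := by
      have h3 := Real.exp_bound_div_one_sub_of_interval (x := η / 3) (by linarith) (by linarith)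
      refine h3.trans ?_
      rw [div_le_iff₀ (by linarith)]
      nlinarith
    calc Real.exp (η / 6) = (Real.exp (η / 3)) ^ (1 / 2 : ℝ) := by
          rw [← Real.exp_mul]
          congr 1
          ring
      _ ≤ _ := Real.rpow_le_rpow (Real.exp_pos _).le h2 (by norm_num)
  have b2 : (1 - 1/2 * (1 - η)) ^ (-(1 / 2 : ℝ)) ≤ Real.exp (1 / 2) := by
    rw [Real.rpow_neg (by linarith), ← Real.inv_rpow (by linarith)]
    have h2 : (1 - 1/2 * (1 - η))⁻¹ ≤ Real.exp 1 := by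
      have h3 : (1 - 1/2 * (1 - η))⁻¹ ≤ (1/2)⁻¹ := inv_anti₀ (by norm_num) (by linarith)
      have h4 := Real.add_one_le_exp (1:ℝ)
      norm_num at h3
      linarith
    calc ((1 - 1/2 * (1 - η))⁻¹) ^ (1 / 2 : ℝ) ≤ (Real.exp 1) ^ (1 / 2 : ℝ) :=
          Real.rpow_le_rpow (inv_nonneg.2 (by linarith)) h2 (by norm_num)
      _ = _ := by
          rw [← Real.exp_mul]
          congr 1
          ring
  calc (N : ℝ≥0∞) * (ENNReal.ofReal ((1 + 1/2 * (1 - (1 - η))) ^ (-(1 / 2 : ℝ))) ^ d *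
      ENNReal.ofReal ((1 - 1/2 * (1 - η)) ^ (-(1 / 2 : ℝ))) ^ k)
      ≤ (N : ℝ≥0∞) * (ENNReal.ofReal (Real.exp (-(η / 6))) ^ d *
      ENNReal.ofReal (Real.exp (1 / 2)) ^ k) := by gcongr
    _ = ENNReal.ofReal (N * (Real.exp (-(η / 6)) ^ d * Real.exp (1 / 2) ^ k)) := by
        rw [ENNReal.ofReal_mul (Nat.cast_nonneg _), ENNReal.ofReal_natCast,
          ENNReal.ofReal_mul (by positivity), ENNReal.ofReal_pow (Real.exp_pos _).le,
          ENNReal.ofReal_pow (Real.exp_pos _).le]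
    _ = _ := by
        rw [← Real.exp_nat_mul, ← Real.exp_nat_mul, ← Real.exp_add]
        congr 3
        ring

theorem nul_ae (d N : ℕ) : ∀ᵐ g ∂(Law d N),
    ∀ c : Cand d N {1, -1}, g ∉ NullC (fun _ => 1) c := by
  rw [ae_all_iff]
  intro c
  rw [ae_iff]
  have h2 : {g : Fin N → E d | ¬ g ∉ NullC (fun _ => 1) c} = NullC (fun _ => 1) c := by
    ext g
    simp
  rw [h2]
  exact RP.nullC_zero (gm d) measurable_const (fun v τ _ => null_one v τ) c

/-- small codimension: probability -/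
theorem prob_small (hd : 1 ≤ d) (k : ℕ) (hk : 1 ≤ k) (hN : N = d + k) (η β : ℝ) (h0 : 0 ≤ η)
    (h1 : η ≤ 1) (hβ0 : 0 < β) (hβN : β * N ≤ k) (hβ : (k : ℝ) ^ 2 * η < β * N) (y : ℝ)
    (hy : 0 < y) :
    Law d N {g | ¬ Good y (Sec g)} ≤ ENNReal.ofReal (N * Real.exp (k / 2 - η * d / 6)) +
      ENNReal.ofReal (2 ^ N * Real.sqrt (Real.exp 1 * (β * N / k)) ^ k / y) := by
  have hβ1 : β ≤ 1 := by
    have hd0 : (0:ℝ) < d := by exact_mod_cast hd
    have hNr : (N : ℝ) = d + k := by rw [hN]; push_cast; ring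
    have hk0 : (0:ℝ) ≤ k := Nat.cast_nonneg _
    by_contra hc
    push Not at hc
    nlinarith
  have h2 : Law d N {g | ¬ Good y (Sec g)} ≤
      Law d N ({g | ¬ LowLev (1 - η) g} ∪ {g | y ≤ patN β g}) := by
    refine measure_mono_ae ?_
    filter_upwards [gp_ae' d N] with g hg hbad
    by_contra hcon
    have hcon' : ¬ (¬ LowLev (1 - η) g ∨ y ≤ patN β g) := hcon
    push Not at hcon'
    apply hbad
    exact (det_small hd hN g hg hcon'.1 (by linarith) hβ1 (by
      rw [sub_sub_cancel]; exact hβ)).mono hcon'.2.le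
  refine h2.trans ((measure_union_le _ _).trans (add_le_add (low_num hd k hN η h0 h1) ?_))
  exact pat_markov (by omega) β _ (by positivity)
    (fun W hW => num_pat hd k hk hN β hβ0 hβN W hW) y hy

/-- medium codimension: probability -/
theorem prob_mid (hd : 1 ≤ d) (k : ℕ) (hk : 1 ≤ k) (hN : N = d + k) (η β : ℝ) (h0 : 0 ≤ η)
    (h1 : η < 1) (hβ0 : 0 < β) (hβN : β * N ≤ k) (R : ℝ) (hR : 1 ≤ R)
    (hRt : (1 + (1 - η)) ^ 2 / (4 * (1 - η)) * (d - (1 - η) * (β * N)) ≤ R ^ 2)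
    (y : ℝ) (hy : 0 < y) :
    Law d N {g | ¬ Good (y + bnd d d R) (Sec g)} ≤
      ENNReal.ofReal (N * Real.exp (k / 2 - η * d / 6)) +
      ENNReal.ofReal (2 ^ N * Real.sqrt (Real.exp 1 * (β * N / k)) ^ k / y) := by
  have hβ1 : β ≤ 1 := by
    have hd0 : (0:ℝ) < d := by exact_mod_cast hd
    have hNr : (N : ℝ) = d + k := by rw [hN]; push_cast; ring
    have hk0 : (0:ℝ) ≤ k := Nat.cast_nonneg _
    by_contra hc
    push Not at hc
    nlinarith
  have h2 : Law d N {g | ¬ Good (y + bnd d d R) (Sec g)} ≤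
      Law d N ({g | ¬ LowLev (1 - η) g} ∪ {g | y ≤ patN β g}) := by
    refine measure_mono_ae ?_
    filter_upwards [gp_ae' d N, nul_ae d N] with g hg hnul hbad
    by_contra hcon
    have hcon' : ¬ (¬ LowLev (1 - η) g ∨ y ≤ patN β g) := hcon
    push Not at hcon'
    apply hbad
    exact (det_mid hd (by omega) g hg hnul hcon'.1 (by linarith) hβ1 R hR hRt).mono
      (by linarith [hcon'.2])
  refine h2.trans ((measure_union_le _ _).trans (add_le_add (low_num hd k hN η h0 h1.le) ?_))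
  exact pat_markov (by omega) β _ (by positivity)
    (fun W hW => num_pat hd k hk hN β hβ0 hβN W hW) y hy

end Pool.Agent.J4H48.RS
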